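import Pool.Agent.Helper80.CB.Stmts

/-!
# Complex Banach conjecture, algebra half: basic lemmas on `val`, `linP`, `lval`, Weyl group
-/

namespace Pool.Agent.Helper80.CB

open Matrix MvPolynomial

section Val

variable {q : ℕ} {T : Type} [AddCommGroup T] [Module ℝ T] (b : Module.Basis (Fin q) ℝ T)

theorem val_add (x : T) (P Q : MvPolynomial (Fin q) ℝ) :
    val b x (P + Q) = val b x P + val b x Q := by simp [val]

theorem val_sub (x : T) (P Q : MvPolynomial (Fin q) ℝ) :
    val b x (P - Q) = val b x P - val b x Q := by simp [val]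

theorem val_mul (x : T) (P Q : MvPolynomial (Fin q) ℝ) :
    val b x (P * Q) = val b x P * val b x Q := by simp [val]

theorem val_pow (x : T) (P : MvPolynomial (Fin q) ℝ) (k : ℕ) :
    val b x (P ^ k) = val b x P ^ k := by simp [val]

theorem val_one (x : T) : val b x (1 : MvPolynomial (Fin q) ℝ) = 1 := by simp [val]

theorem val_zero (x : T) : val b x (0 : MvPolynomial (Fin q) ℝ) = 0 := by simp [val]

theorem val_smul (x : T) (a : ℝ) (P : MvPolynomial (Fin q) ℝ) :
    val b x (a • P) = a * val b x P := by simp [val, MvPolynomial.smul_eval]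

theorem val_sum {ι : Type*} (s : Finset ι) (x : T) (P : ι → MvPolynomial (Fin q) ℝ) :
    val b x (∑ i ∈ s, P i) = ∑ i ∈ s, val b x (P i) := by simp [val]

theorem val_ext {P Q : MvPolynomial (Fin q) ℝ} (h : ∀ x : T, val b x P = val b x Q) : P = Q := by
  apply MvPolynomial.funext
  intro v
  have := h (b.equivFun.symm v)
  simpa [val, Module.Basis.equivFun] using this

theorem linP_eval (x : T) (l : T →ₗ[ℝ] ℝ) : val b x (linP b l) = l x := by
  unfold val linP
  simp only [map_sum, map_mul, MvPolynomial.eval_C, MvPolynomial.eval_X]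
  conv_rhs => rw [← b.sum_repr x]
  rw [map_sum]
  refine Finset.sum_congr rfl fun i _ => ?_
  rw [map_smul, smul_eq_mul, mul_comm]

theorem linP_homog (l : T →ₗ[ℝ] ℝ) : (linP b l).IsHomogeneous 1 := by
  unfold linP
  refine MvPolynomial.IsHomogeneous.sum _ _ _ fun i _ => ?_
  have h1 := MvPolynomial.isHomogeneous_C (Fin q) (l (b i))
  have h2 := MvPolynomial.isHomogeneous_X ℝ i
  simpa using h1.mul h2

theorem aeval_linP (τ : Fin q → ℂ) (l : T →ₗ[ℝ] ℝ) :
    MvPolynomial.aeval τ (linP b l) = lval b τ l := by
  unfold linP lval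
  simp [MvPolynomial.aeval_X]

theorem val_scale (x : T) (a : ℝ) (P : MvPolynomial (Fin q) ℝ) (k : ℕ)
    (hP : P.IsHomogeneous k) : val b (a • x) P = a ^ k * val b x P := by
  unfold val
  rw [map_smul]
  have h2 : (fun i => (a • b.repr x) i) = fun i => a * (b.repr x) i := by
    funext i; simp
  rw [h2]
  rw [MvPolynomial.eval_eq', MvPolynomial.eval_eq', Finset.mul_sum]
  refine Finset.sum_congr rfl fun d hd => ?_
  have h3 : ∑ i, d i = k := by
    have := hP (MvPolynomial.mem_support_iff.mp hd)
    rw [Finsupp.weight_apply] at this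
    simp only [Pi.one_apply, smul_eq_mul, mul_one] at this
    rw [Finsupp.sum_fintype _ _ (fun _ => rfl)] at this
    exact this
  simp only [mul_pow, Finset.prod_mul_distrib, Finset.prod_pow_eq_pow_sum, h3]
  ring

/-- Homogeneous components and identities `val b (a • x)`. -/
theorem val_component (x : T) (a : ℝ) (P : MvPolynomial (Fin q) ℝ) :
    val b (a • x) P = ∑ k ∈ Finset.range (P.totalDegree + 1),
      a ^ k * val b x (MvPolynomial.homogeneousComponent k P) := by
  conv_lhs => rw [← MvPolynomial.sum_homogeneousComponent P]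
  rw [val_sum]
  refine Finset.sum_congr rfl fun k _ => ?_
  exact val_scale b x a _ k (MvPolynomial.homogeneousComponent_isHomogeneous k P)

/-- If `P` along the ray of `x` equals `Q` along the ray of `y`, the homogeneous components agree
at `x` and `y`. -/
theorem component_eq {q' : ℕ} {T' : Type} [AddCommGroup T'] [Module ℝ T']
    (b' : Module.Basis (Fin q') ℝ T') (x : T) (y : T') (P : MvPolynomial (Fin q) ℝ)
    (Q : MvPolynomial (Fin q') ℝ) (h : ∀ a : ℝ, val b (a • x) P = val b' (a • y) Q) (k : ℕ) :
    val b x (MvPolynomial.homogeneousComponent k P) =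
      val b' y (MvPolynomial.homogeneousComponent k Q) := by
  have key : ∀ {q : ℕ} {T : Type} [AddCommGroup T] [Module ℝ T] (b : Module.Basis (Fin q) ℝ T)
      (x : T) (P : MvPolynomial (Fin q) ℝ), ∃ f : Polynomial ℝ,
      (∀ a, f.eval a = val b (a • x) P) ∧
        ∀ k, f.coeff k = val b x (MvPolynomial.homogeneousComponent k P) := by
    intro q T _ _ b x P
    refine ⟨∑ k ∈ Finset.range (P.totalDegree + 1),
      Polynomial.C (val b x (MvPolynomial.homogeneousComponent k P)) * Polynomial.X ^ k,
      fun a => ?_, fun k => ?_⟩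
    · rw [val_component, Polynomial.eval_finsetSum]
      refine Finset.sum_congr rfl fun k _ => ?_
      rw [Polynomial.eval_mul, Polynomial.eval_C, Polynomial.eval_pow, Polynomial.eval_X,
        mul_comm]
    · rw [Polynomial.finsetSum_coeff]
      simp only [Polynomial.coeff_C_mul, Polynomial.coeff_X_pow, mul_ite, mul_one, mul_zero]
      rw [Finset.sum_ite_eq]
      split_ifs with hk
      · rfl
      · rw [Finset.mem_range, not_lt] at hk
        rw [MvPolynomial.homogeneousComponent_eq_zero _ _ (by omega), val_zero]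
  obtain ⟨f, hf, hfc⟩ := key b x P
  obtain ⟨g, hg, hgc⟩ := key b' y Q
  have : f = g := Polynomial.funext fun a => by rw [hf, hg, h]
  rw [← hfc, ← hgc, this]

end Val

end Pool.Agent.Helper80.CB
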