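import Pool.Agent.Helper80.CB.Stmts

/-!
# Complex Banach conjecture, algebra half: CONJ
-/

namespace Pool.Agent.Helper80.CB

open Matrix

open scoped Matrix.Norms.Operator in
theorem conj_deriv {n : ℕ} (Z X Y : Mat n) :
    HasDerivAt (fun s : ℝ => ip (NormedSpace.exp ((s : ℂ) • Complex.I • Z) * X *
      NormedSpace.exp (-((s : ℂ) • Complex.I • Z))) Y)
      (ip (Complex.I • (Z * X - X * Z)) Y) 0 := by
  have h1 : HasDerivAt (fun s : ℝ => NormedSpace.exp (s • (Complex.I • Z)))
      (NormedSpace.exp ((0:ℝ) • (Complex.I • Z)) * (Complex.I • Z)) 0 :=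
    hasDerivAt_exp_smul_const (𝕂 := ℝ) (Complex.I • Z) 0
  have h2 : HasDerivAt (fun s : ℝ => NormedSpace.exp (s • (-(Complex.I • Z))))
      (NormedSpace.exp ((0:ℝ) • (-(Complex.I • Z))) * (-(Complex.I • Z))) 0 :=
    hasDerivAt_exp_smul_const (𝕂 := ℝ) (-(Complex.I • Z)) 0
  simp only [zero_smul, NormedSpace.exp_zero, one_mul] at h1 h2
  have h3 := (h1.mul_const X).mul h2
  simp only [zero_smul, NormedSpace.exp_zero, mul_one, one_mul] at h3
  let L : Mat n →ₗ[ℝ] ℝ :=
    { toFun := fun W => ip W Y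
      map_add' := fun a b => by simp [ip, Matrix.add_mul]
      map_smul' := fun a b => by simp [ip, Matrix.conjTranspose_smul] }
  have hL : Continuous L := LinearMap.continuous_of_finiteDimensional L
  have h4 := (⟨L, hL⟩ : Mat n →L[ℝ] ℝ).hasFDerivAt.comp_hasDerivAt (0:ℝ) h3
  have e1 : (fun s : ℝ => ip (NormedSpace.exp ((s : ℂ) • Complex.I • Z) * X *
      NormedSpace.exp (-((s : ℂ) • Complex.I • Z))) Y) =
      fun s : ℝ => L (NormedSpace.exp (s • (Complex.I • Z)) * X *
        NormedSpace.exp (s • (-(Complex.I • Z)))) := by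
    funext s
    show ip _ Y = ip _ Y
    rw [Complex.coe_smul, smul_neg]
  rw [e1]
  have e2 : Complex.I • (Z * X - X * Z) = Complex.I • Z * X + X * -(Complex.I • Z) := by
    rw [smul_sub, Matrix.smul_mul, Matrix.mul_neg, Matrix.mul_smul, sub_eq_add_neg]
  rw [e2]
  exact h4

theorem cnorm_sq (z : ℂ) : star z * z = ((‖z‖ ^ 2 : ℝ) : ℂ) := by
  rw [← Complex.normSq_eq_norm_sq, Complex.normSq_eq_conj_mul_self]
  rfl

theorem ip_sq_pos {n : ℕ} {X : Mat n} (h : ip X X = 0) : X = 0 := by
  have h1 : (Matrix.trace (Xᴴ * X)).re = ∑ i, ∑ j, ‖X j i‖ ^ 2 := by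
    rw [Matrix.trace]
    simp only [Matrix.diag_apply, Matrix.mul_apply, Matrix.conjTranspose_apply, Complex.re_sum]
    refine Finset.sum_congr rfl fun i _ => Finset.sum_congr rfl fun j _ => ?_
    have : star (X j i) * X j i = ((‖X j i‖ ^ 2 : ℝ) : ℂ) := by
      exact cnorm_sq (X j i)
    rw [this, Complex.ofReal_re]
  unfold ip at h
  rw [h1] at h
  ext i j
  have h2 := (Finset.sum_eq_zero_iff_of_nonneg (fun i _ => Finset.sum_nonneg
    fun j _ => sq_nonneg _)).mp h j (Finset.mem_univ _)
  have h3 := (Finset.sum_eq_zero_iff_of_nonneg (fun j _ => sq_nonneg _)).mp h2 i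
    (Finset.mem_univ _)
  simpa using h3

theorem Cpt.isCompact {n : ℕ} (D : Cpt n) : IsCompact D.S := by
  have hb : D.S ⊆ {g : Mat n | ∀ i j, g i j ∈ Metric.closedBall (0 : ℂ) 1} := by
    intro g hg i j
    have h1 := congrFun (congrFun (D.unit g hg) j) j
    rw [Matrix.mul_apply, Matrix.one_apply_eq] at h1
    have h2 : ∑ k, ‖g k j‖ ^ 2 = 1 := by
      have h3 : ∑ k, ((‖g k j‖ ^ 2 : ℝ) : ℂ) = 1 := by
        rw [← h1]
        refine Finset.sum_congr rfl fun k _ => ?_
        exact (cnorm_sq (g k j)).symm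
      exact_mod_cast h3
    have h4 : ‖g i j‖ ^ 2 ≤ 1 := by
      rw [← h2]
      exact Finset.single_le_sum (f := fun k => ‖g k j‖ ^ 2) (fun k _ => sq_nonneg _)
        (Finset.mem_univ i)
    rw [mem_closedBall_zero_iff]
    nlinarith [norm_nonneg (g i j)]
  have hc : IsCompact {g : Mat n | ∀ i j, g i j ∈ Metric.closedBall (0 : ℂ) 1} := by
    have h1 : {g : Mat n | ∀ i j, g i j ∈ Metric.closedBall (0 : ℂ) 1} =
        Set.pi Set.univ (fun _ : Fin n => Set.pi Set.univ
          (fun _ : Fin n => Metric.closedBall (0 : ℂ) 1)) := by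
      ext g
      constructor
      · intro h i _ j _
        exact h i j
      · intro h i j
        exact h i (Set.mem_univ i) j (Set.mem_univ j)
    rw [h1]
    exact isCompact_univ_pi fun _ => isCompact_univ_pi fun _ => isCompact_closedBall 0 1
  exact hc.of_isClosed_subset D.closed hb

theorem continuous_ip {n : ℕ} {α : Type*} [TopologicalSpace α] {f g : α → Mat n}
    (hf : Continuous f) (hg : Continuous g) : Continuous fun x => ip (f x) (g x) := by
  unfold ip
  exact Complex.continuous_re.comp ((hf.matrix_conjTranspose.matrix_mul hg).matrix_trace)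

theorem st_CONJ : ST_CONJ := by
  intro n D X hX Y hY
  obtain ⟨g, hg, hmax⟩ := D.isCompact.exists_isMaxOn (f := fun g => ip (g * X * gᴴ) Y)
    ⟨1, D.one_mem⟩ (Continuous.continuousOn (continuous_ip
      ((continuous_id.matrix_mul continuous_const).matrix_mul
        continuous_id.matrix_conjTranspose) continuous_const))
  refine ⟨g, hg, ?_⟩
  set X' := g * X * gᴴ with hX'
  have hX'm : X' ∈ D.h := D.Ad_mem g hg X hX
  have hH := D.herm X' hX'm
  have hHY := D.herm Y hY
  have key : ∀ Z ∈ D.h, ip (Complex.I • (Z * X' - X' * Z)) Y = 0 := by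
    intro Z hZ
    have hd := conj_deriv Z X' Y
    have hloc : IsLocalMax (fun s : ℝ => ip (NormedSpace.exp ((s : ℂ) • Complex.I • Z) * X' *
      NormedSpace.exp (-((s : ℂ) • Complex.I • Z))) Y) 0 := by
      apply Filter.Eventually.of_forall
      intro s
      have hZs : ((s : ℝ) • Z) ∈ D.h := D.h.smul_mem s hZ
      have hk := D.exp_mem _ hZs
      have e1 : (s : ℂ) • Complex.I • Z = Complex.I • (s • Z) := by
        rw [smul_comm, Complex.coe_smul]
      have hkH : (NormedSpace.exp (Complex.I • (s • Z)))ᴴ =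
          NormedSpace.exp (-(Complex.I • (s • Z))) := by
        rw [← Matrix.exp_conjTranspose]
        congr 1
        rw [Matrix.conjTranspose_smul, Matrix.conjTranspose_smul, D.herm Z hZ]
        simp
      have h1 := hmax (D.mul_mem _ hk g hg)
      simp only [Complex.ofReal_zero, zero_smul, neg_zero, NormedSpace.exp_zero, one_mul, mul_one]
      rw [e1, ← hkH]
      have e2 : NormedSpace.exp (Complex.I • (s • Z)) * X' *
          (NormedSpace.exp (Complex.I • (s • Z)))ᴴ =
          (NormedSpace.exp (Complex.I • (s • Z)) * g) * X *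
            (NormedSpace.exp (Complex.I • (s • Z)) * g)ᴴ := by
        rw [Matrix.conjTranspose_mul, hX']
        simp only [Matrix.mul_assoc]
      rw [e2]
      exact h1
    exact hloc.hasDerivAt_eq_zero hd
  have h2 := key _ (D.brk X' hX'm Y hY)
  have hWH := D.herm _ (D.brk X' hX'm Y hY)
  clear_value X'
  have h3 : ip (Complex.I • (X' * Y - Y * X')) (Complex.I • (X' * Y - Y * X')) = 0 := by
    rw [← h2]
    set W := Complex.I • (X' * Y - Y * X') with hW
    have hVH : (Complex.I • (W * X' - X' * W))ᴴ = Complex.I • (W * X' - X' * W) := by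
      rw [Matrix.conjTranspose_smul, Matrix.conjTranspose_sub, Matrix.conjTranspose_mul,
        Matrix.conjTranspose_mul, hWH, hH]
      simp only [Complex.star_def, Complex.conj_I, neg_smul, ← smul_neg, neg_sub]
    unfold ip
    rw [hVH, hWH]
    congr 1
    have e1 : Matrix.trace (W * W) =
        Complex.I * (Matrix.trace (W * (X' * Y)) - Matrix.trace (W * (Y * X'))) := by
      conv_lhs => rw [hW, Matrix.mul_smul, Matrix.trace_smul, Matrix.mul_sub, Matrix.trace_sub,
        smul_eq_mul]
    have e2 : Matrix.trace (Complex.I • (W * X' - X' * W) * Y) =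
        Complex.I * (Matrix.trace (W * (X' * Y)) - Matrix.trace (W * (Y * X'))) := by
      rw [Matrix.smul_mul, Matrix.trace_smul, Matrix.sub_mul, Matrix.trace_sub, smul_eq_mul,
        Matrix.mul_assoc, Matrix.mul_assoc X' W Y, Matrix.trace_mul_comm X' (W * Y),
        Matrix.mul_assoc W Y X']
    rw [e1, e2]
  have h4 := ip_sq_pos h3
  have h5 : X' * Y - Y * X' = 0 := by
    have := congrArg (fun W => (-Complex.I) • W) h4
    simpa [smul_smul] using this
  exact sub_eq_zero.mp h5

end Pool.Agent.Helper80.CB
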