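import Pool.Agent.Helper80.CB.Basic

/-!
# Complex Banach conjecture, algebra half: CENT, AVOID, GEN, REG, FUS
-/

namespace Pool.Agent.Helper80.CB

open Matrix MvPolynomial

theorem st_CENT : ST_CENT := by
  intro n D T
  have hunit' : ∀ g ∈ D.S, g * gᴴ = 1 := fun g hg => mul_eq_one_comm.mp (D.unit g hg)
  have hstar : ∀ g ∈ D.S, ∀ x : Mat n, g * x = x * g → gᴴ * x = x * gᴴ := by
    intro g hg x hx
    calc gᴴ * x = gᴴ * x * (g * gᴴ) := by rw [hunit' g hg, Matrix.mul_one]
      _ = gᴴ * (x * g) * gᴴ := by simp only [Matrix.mul_assoc]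
      _ = gᴴ * (g * x) * gᴴ := by rw [hx]
      _ = (gᴴ * g) * x * gᴴ := by simp only [Matrix.mul_assoc]
      _ = x * gᴴ := by rw [D.unit g hg, Matrix.one_mul]
  refine ⟨{
    S := {g | g ∈ D.S ∧ ∀ x ∈ T, g * x = x * g}
    h := { carrier := {X | X ∈ D.h ∧ ∀ x ∈ T, X * x = x * X}
           add_mem' := ?_
           zero_mem' := ?_
           smul_mem' := ?_ }
    one_mem := ?_
    mul_mem := ?_
    star_mem := ?_
    unit := ?_
    closed := ?_
    herm := ?_
    exp_mem := ?_
    Ad_mem := ?_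
    brk := ?_ }, fun g => Iff.rfl, fun X => Iff.rfl⟩
  · rintro X Y ⟨hX, hX'⟩ ⟨hY, hY'⟩
    exact ⟨D.h.add_mem hX hY, fun x hx => by
      rw [Matrix.add_mul, Matrix.mul_add, hX' x hx, hY' x hx]⟩
  · exact ⟨D.h.zero_mem, fun x hx => by simp⟩
  · rintro a X ⟨hX, hX'⟩
    exact ⟨D.h.smul_mem a hX, fun x hx => by
      rw [Matrix.smul_mul, Matrix.mul_smul, hX' x hx]⟩
  · exact ⟨D.one_mem, fun x hx => by simp⟩
  · rintro g ⟨hg, hg'⟩ g' ⟨hk, hk'⟩
    refine ⟨D.mul_mem g hg g' hk, fun x hx => ?_⟩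
    rw [Matrix.mul_assoc, hk' x hx, ← Matrix.mul_assoc, hg' x hx, Matrix.mul_assoc]
  · rintro g ⟨hg, hg'⟩
    exact ⟨D.star_mem g hg, fun x hx => hstar g hg x (hg' x hx)⟩
  · rintro g ⟨hg, -⟩
    exact D.unit g hg
  · have : {g | g ∈ D.S ∧ ∀ x ∈ T, g * x = x * g} = D.S ∩ ⋂ x ∈ T, {g : Mat n | g * x = x * g} := by
      ext g; simp
    rw [this]
    refine D.closed.inter (isClosed_biInter fun x _ => isClosed_eq ?_ ?_)
    · exact continuous_id.matrix_mul continuous_const
    · exact continuous_const.matrix_mul continuous_id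
  · rintro X ⟨hX, -⟩
    exact D.herm X hX
  · rintro X ⟨hX, hX'⟩
    refine ⟨D.exp_mem X hX, fun x hx => ?_⟩
    have h1 : Commute (Complex.I • X) x := by
      have : Commute X x := hX' x hx
      exact this.smul_left Complex.I
    have := h1.symm.exp_right
    exact this.symm.eq
  · rintro g ⟨hg, hg'⟩ X ⟨hX, hX'⟩
    refine ⟨D.Ad_mem g hg X hX, fun x hx => ?_⟩
    calc g * X * gᴴ * x = g * X * (gᴴ * x) := by simp only [Matrix.mul_assoc]
      _ = g * (X * x) * gᴴ := by rw [hstar g hg x (hg' x hx)]; simp only [Matrix.mul_assoc]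
      _ = (g * x) * X * gᴴ := by rw [hX' x hx]; simp only [Matrix.mul_assoc]
      _ = x * (g * X * gᴴ) := by rw [hg' x hx]; simp only [Matrix.mul_assoc]
  · rintro X ⟨hX, hX'⟩ Y ⟨hY, hY'⟩
    refine ⟨D.brk X hX Y hY, fun x hx => ?_⟩
    rw [Matrix.smul_mul, Matrix.mul_smul]
    congr 1
    rw [Matrix.sub_mul, Matrix.mul_sub, Matrix.mul_assoc, hY' x hx, ← Matrix.mul_assoc, hX' x hx,
      Matrix.mul_assoc Y X x, hX' x hx, ← Matrix.mul_assoc Y x X, hY' x hx]
    simp only [Matrix.mul_assoc]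

theorem st_AVOID : ST_AVOID := by
  intro T _ _ m l hl
  refine Module.Dual.exists_forall_ne_zero_of_forall_exists (K := ℝ) l fun i => ?_
  by_contra hcon
  push Not at hcon
  exact hl i (LinearMap.ext hcon)

theorem st_GEN (hA : ST_AVOID) : ST_GEN := by
  classical
  intro n D t ht
  -- the nonzero differences of weights
  let S : Finset (Fin n × Fin n) := Finset.univ.filter fun p => wt t p.1 ≠ wt t p.2
  obtain ⟨y, hy⟩ := hA t S.card (fun i => wt t (S.equivFin.symm i).1.1 -
    wt t (S.equivFin.symm i).1.2) (fun i => by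
      have := (S.equivFin.symm i).2
      rw [Finset.mem_filter] at this
      exact sub_ne_zero.mpr this.2)
  have hgen : ∀ i j, wt t i y = wt t j y → wt t i = wt t j := by
    intro i j hij
    by_contra hne
    have hmem : (i, j) ∈ S := by simp [S, hne]
    have := hy (S.equivFin ⟨(i, j), hmem⟩)
    simp only [Equiv.symm_apply_apply, LinearMap.sub_apply] at this
    exact this (sub_eq_zero.mpr hij)
  refine ⟨y, hgen, ?_⟩
  intro X hX hcomm
  apply ht.max X hX
  intro x hx
  have hd : ∀ z : t, (z : Mat n) = Matrix.diagonal (fun i => ((wt t i z : ℝ) : ℂ)) := by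
    intro z
    ext i k
    by_cases hik : i = k
    · subst hik
      rw [Matrix.diagonal_apply_eq]
      have h4 := D.herm z (ht.le z.2)
      have h5 : (starRingEnd ℂ) ((z : Mat n) i i) = (z : Mat n) i i := by
        have := congrFun (congrFun h4 i) i
        simpa [Matrix.conjTranspose_apply] using this
      exact (Complex.conj_eq_iff_re.mp h5).symm
    · rw [Matrix.diagonal_apply_ne _ hik]
      exact ht.diag z z.2 i k hik
  rw [hd y] at hcomm
  have hdx := hd ⟨x, hx⟩
  simp only at hdx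
  rw [hdx]
  ext i j
  rw [Matrix.mul_diagonal, Matrix.diagonal_mul]
  have h1 := congrFun (congrFun hcomm i) j
  rw [Matrix.mul_diagonal, Matrix.diagonal_mul] at h1
  by_cases hij : wt t i y = wt t j y
  · rw [hgen i j hij, mul_comm]
  · have h2 : X i j * (((wt t j y : ℝ) : ℂ) - ((wt t i y : ℝ) : ℂ)) = 0 := by
      linear_combination h1
    have h3 : (((wt t j y : ℝ) : ℂ) - ((wt t i y : ℝ) : ℂ)) ≠ 0 := by
      rw [← Complex.ofReal_sub]
      exact_mod_cast sub_ne_zero.mpr (Ne.symm hij)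
    have h4 : X i j = 0 := (mul_eq_zero.mp h2).resolve_right h3
    rw [h4]; ring

theorem st_REG (hC : ST_CONJ) (hG : ST_GEN) : ST_REG := by
  intro n D t ht X hX
  obtain ⟨y, -, hy⟩ := hG n D t ht
  obtain ⟨g, hg, hgc⟩ := hC n D X hX y (ht.le y.2)
  exact ⟨g, hg, hy _ (D.Ad_mem g hg X hX) hgc⟩

theorem st_FUS (hC : ST_CONJ) (hG : ST_GEN) (hZ : ST_CENT) : ST_FUS := by
  intro n D t ht x hx g hg hgx
  obtain ⟨y, hy1, hy2⟩ := hG n D t ht
  have hcomm : ∀ a ∈ t, ∀ b ∈ t, a * b = b * a := by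
    intro a ha b hb
    have e1 : a = Matrix.diagonal (fun i => a i i) := by
      ext i k
      by_cases hik : i = k
      · subst hik; simp
      · rw [Matrix.diagonal_apply_ne _ hik]; exact ht.diag a ha i k hik
    have e2 : b = Matrix.diagonal (fun i => b i i) := by
      ext i k
      by_cases hik : i = k
      · subst hik; simp
      · rw [Matrix.diagonal_apply_ne _ hik]; exact ht.diag b hb i k hik
    rw [e1, e2, Matrix.diagonal_mul_diagonal, Matrix.diagonal_mul_diagonal]
    congr 1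
    funext i
    simp [mul_comm]
  have hun : ∀ g ∈ D.S, g * gᴴ = 1 := fun g hg => mul_eq_one_comm.mp (D.unit g hg)
  obtain ⟨D', hS', hh'⟩ := hZ n D {g * x * gᴴ}
  have hconjmul : ∀ k ∈ D.S, ∀ a b : Mat n, (k * a * kᴴ) * (k * b * kᴴ) = k * (a * b) * kᴴ := by
    intro k hk a b
    calc (k * a * kᴴ) * (k * b * kᴴ) = k * a * (kᴴ * k) * b * kᴴ := by
          simp only [Matrix.mul_assoc]
      _ = _ := by rw [D.unit k hk]; simp only [Matrix.mul_assoc, Matrix.one_mul]
  have hX : g * (y : Mat n) * gᴴ ∈ D'.h := by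
    rw [hh']
    refine ⟨D.Ad_mem g hg _ (ht.le y.2), ?_⟩
    intro z hz
    rw [Set.mem_singleton_iff] at hz
    subst hz
    rw [hconjmul g hg, hconjmul g hg, hcomm x hx y y.2]
  have hY : (y : Mat n) ∈ D'.h := by
    rw [hh']
    refine ⟨ht.le y.2, ?_⟩
    intro z hz
    rw [Set.mem_singleton_iff] at hz
    subst hz
    exact hcomm _ y.2 _ hgx
  obtain ⟨c, hc, hcc⟩ := hC n D' _ hX _ hY
  rw [hS'] at hc
  obtain ⟨hc1, hc2⟩ := hc
  have hc2' := hc2 _ (Set.mem_singleton _)
  have hm : c * g ∈ D.S := D.mul_mem c hc1 g hg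
  have hassoc : ∀ z : Mat n, (c * g) * z * (c * g)ᴴ = c * (g * z * gᴴ) * cᴴ := by
    intro z
    rw [Matrix.conjTranspose_mul]
    simp only [Matrix.mul_assoc]
  have hmy : (c * g) * (y : Mat n) * (c * g)ᴴ ∈ t := by
    rw [hassoc]
    exact hy2 _ (D.Ad_mem c hc1 _ (D.Ad_mem g hg _ (ht.le y.2))) hcc
  set m := c * g with hmdef
  -- the map z ↦ mᴴ z m sends t to t
  have hinv : ∀ z ∈ t, mᴴ * z * m ∈ t := by
    intro z hz
    have hz' : mᴴ * z * m ∈ D.h := by
      have := D.Ad_mem mᴴ (D.star_mem m hm) z (ht.le hz)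
      rwa [Matrix.conjTranspose_conjTranspose] at this
    apply hy2 _ hz'
    -- z commutes with m y mᴴ
    have h1 := hcomm z hz _ hmy
    calc mᴴ * z * m * (y : Mat n) = mᴴ * (z * (m * (y : Mat n) * mᴴ)) * m := by
          have : (m * (y : Mat n) * mᴴ) * m = m * (y : Mat n) := by
            rw [Matrix.mul_assoc, D.unit m hm, Matrix.mul_one]
          simp only [Matrix.mul_assoc] at this ⊢
          rw [this]
      _ = mᴴ * ((m * (y : Mat n) * mᴴ) * z) * m := by rw [h1]
      _ = (mᴴ * m) * (y : Mat n) * (mᴴ * z * m) := by simp only [Matrix.mul_assoc]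
      _ = (y : Mat n) * (mᴴ * z * m) := by rw [D.unit m hm, Matrix.one_mul]
  -- by finite dimension it is surjective
  let F : t →ₗ[ℝ] t :=
    { toFun := fun z => ⟨mᴴ * (z : Mat n) * m, hinv z z.2⟩
      map_add' := fun a b => by
        apply Subtype.ext
        simp [Matrix.mul_add, Matrix.add_mul]
      map_smul' := fun a b => by
        apply Subtype.ext
        simp }
  have hFinj : Function.Injective F := by
    intro a b hab
    have h1 : mᴴ * (a : Mat n) * m = mᴴ * (b : Mat n) * m := congrArg Subtype.val hab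
    apply Subtype.ext
    have h2 : ∀ z : Mat n, m * (mᴴ * z * m) * mᴴ = z := by
      intro z
      calc m * (mᴴ * z * m) * mᴴ = (m * mᴴ) * z * (m * mᴴ) := by simp only [Matrix.mul_assoc]
        _ = z := by rw [hun m hm]; simp
    rw [← h2 a, ← h2 b, h1]
  have hFsurj : Function.Surjective F := LinearMap.surjective_of_injective hFinj
  refine ⟨m, hm, ?_, ?_⟩
  · intro z hz
    obtain ⟨a, ha⟩ := hFsurj ⟨z, hz⟩
    have h1 : mᴴ * (a : Mat n) * m = z := congrArg Subtype.val ha
    rw [← h1]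
    have h2 : m * (mᴴ * (a : Mat n) * m) * mᴴ = a := by
      calc m * (mᴴ * (a : Mat n) * m) * mᴴ = (m * mᴴ) * (a : Mat n) * (m * mᴴ) := by
            simp only [Matrix.mul_assoc]
        _ = a := by rw [hun m hm]; simp
    rw [h2]
    exact a.2
  · rw [hassoc, hc2', Matrix.mul_assoc, hun c hc1, Matrix.mul_one]

end Pool.Agent.Helper80.CB
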