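import Pool.Agent.Helper80.CB.Final
import Pool.Agent.Helper80.CB.A_small
import Pool.Agent.Helper80.CB.A_CONJ
import Pool.Agent.Helper55.CB.A_WMK
import Pool.Agent.Helper55.CB.A_SU2
import Pool.Agent.Helper84.CB.A_WPERM
import Pool.Agent.Helper55.CB.A_WFIN
import Pool.Agent.Helper94.CB.A_TOR
import Pool.Agent.Helper41.CB.A_ORB
import Pool.Agent.Helper41.CB.A_CSTG
import Pool.Agent.Helper41.CB.A_CST
import Pool.Agent.Helper85.CB.RREF
import Pool.Agent.Helper41.CB.A_CSTF
import Pool.Agent.Helper95.CB.A_COVER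
import Pool.Agent.Helper41.CB.A_REYN
import Pool.Agent.Helper95.CB.A_LIFT
import Pool.Agent.Helper55.CB.A_ODD
import Pool.Agent.Helper95.CB.A_GAL
import Pool.Agent.Helper84.CB.A_PROJ
import Pool.Agent.Helper84.CB.A_CSTL
import Pool.Agent.Helper94.CB.A_FIX
import Pool.Agent.Helper64.CB.A_TRP
import Pool.Agent.Helper64.CB.A_NEWT
import Pool.Agent.Helper78.CB.A_TAU
import Pool.Agent.Helper55.CB.A_LINEND
import Pool.Agent.Helper95.CB.A_REST
import Pool.Agent.Helper64.CB.A_CHP
import Pool.Agent.Helper37.CB.A_SEP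
import Pool.Agent.Helper78.CB.A_TRANS
import Pool.Agent.Helper71.CB.A_CHAMB
import Pool.Agent.Helper94.CB.A_ONE
import Pool.Agent.Helper30.CB.A_CSTI
import Pool.Agent.Helper57.CB.EXPS

/-!
# Complex Banach conjecture, algebra half: the theorem `ST_ALG` without hypotheses
-/

namespace Pool.Agent.Helper80.CB

theorem main_GEN : ST_GEN := st_GEN st_AVOID
theorem main_REG : ST_REG := st_REG st_CONJ main_GEN
theorem main_FUS : ST_FUS := st_FUS st_CONJ main_GEN st_CENT
theorem main_WPERM : ST_WPERM := st_WPERM st_AVOID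
theorem main_WFIN : ST_WFIN := st_WFIN main_WPERM
theorem main_PROJ : ST_PROJ := st_PROJ st_AVOID
theorem main_CHAMB : ST_CHAMB := st_CHAMB Pool.Agent.Helper85.CB.st_RREF main_WFIN main_WPERM st_AVOID
theorem main_FIX : ST_FIX := st_FIX st_CENT st_CONJ main_PROJ main_WFIN
theorem main_WREF : ST_WREF := st_WREF main_CHAMB main_FIX Pool.Agent.Helper85.CB.st_RREF
theorem main_REST : ST_REST :=
  st_REST main_REG main_FUS st_WMK st_SEP st_CHP st_GAL st_LIFT st_LINEND st_COVER main_WFIN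
theorem main_CST : ST_CST :=
  st_CST st_CSTF (st_CSTG st_REYN) (st_CSTI (st_CSTL st_REYN) st_REYN)

theorem main_ALG : ST_ALG :=
  st_ALG st_TOR st_TRANS main_REG main_REST main_CST (st_TAU st_REYN) st_TRP Pool.Agent.Helper85.CB.st_RREF main_WFIN
    main_WREF st_ORB st_NEWT (st_ODD main_WPERM) st_ONE st_SU2

end Pool.Agent.Helper80.CB
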