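import Pool.Agent.Helper83.CB.Defs4

/-!
# CW2
-/

open Filter Topology MeasureTheory

namespace Pool.Agent.Helper83.CB

/-- products of good forms are good -/
def ST_PROD : Prop := ∀ (ι : Type) [Fintype ι] [DecidableEq ι] (Λ : Ext ι)
  (ω η : (ι → ℝ) → (Λ.X →L[ℝ] Λ.X)), Good Λ ω → Good Λ η → Good Λ (fun x => ω x * η x)

section
variable {ι : Type} [Fintype ι] [DecidableEq ι]

set_option linter.unusedSectionVars false

theorem CW2_cube_meas : MeasurableSet (cube ι) :=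
  MeasurableSet.univ_pi fun _ => measurableSet_Ico

theorem CW2_cube_vol : volume (cube ι) = 1 := by
  unfold cube
  rw [volume_pi_pi]
  simp

theorem CW2_fr_mem (x : ι → ℝ) : fr x ∈ cube ι := by
  intro i _
  exact ⟨Int.fract_nonneg _, Int.fract_lt_one _⟩

theorem CW2_fr_ball (x : ι → ℝ) : fr x ∈ Metric.ball (0 : ι → ℝ) 3 := by
  rw [mem_ball_zero_iff, pi_norm_lt_iff (by norm_num)]
  intro i
  rw [Real.norm_eq_abs, abs_lt]
  have h1 := Int.fract_nonneg (x i)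
  have h2 := Int.fract_lt_one (x i)
  constructor
  · show -3 < Int.fract (x i)
    linarith
  · show Int.fract (x i) < 3
    linarith

/-- `fr x = x` on the cube -/
theorem CW2_fr_cube {x : ι → ℝ} (hx : x ∈ cube ι) : fr x = x := by
  funext i
  have := hx i (Set.mem_univ i)
  exact Int.fract_eq_self.mpr ⟨this.1, this.2⟩

theorem CW2_int_congr {W : Type*} [NormedAddCommGroup W] [NormedSpace ℝ W]
    {f g : (ι → ℝ) → W} (h : ∀ᵐ x, x ∈ cube ι → f x = g x) :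
    ∫ x in cube ι, f x = ∫ x in cube ι, g x := by
  apply setIntegral_congr_ae CW2_cube_meas h

theorem CW2_pow (hM : ST_MEAN) (hP : ST_PROD) (Λ : Ext ι) (ω : (ι → ℝ) → (Λ.X →L[ℝ] Λ.X))
    (hω : Good Λ ω) (j : ℕ) : 
    Good Λ (fun x => ω x ^ (j + 1)) ∧
    ∫ x in cube ι, ω x ^ (j + 1) = (∫ x in cube ι, ω x) ^ (j + 1) := by
  induction j with
  | zero =>
    refine ⟨?_, ?_⟩
    · simpa using hω
    · simp
  | succ j ih =>
    obtain ⟨ih1, ih2⟩ := ih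
    have e : (fun x => ω x ^ (j + 1 + 1)) = fun x => (fun x => ω x ^ (j + 1)) x * ω x := by
      funext x
      rw [pow_succ]
    refine ⟨?_, ?_⟩
    · rw [e]
      exact hP ι Λ _ _ ih1 hω
    · rw [e]
      rw [hM ι Λ _ _ ih1 hω, ih2, ← pow_succ]

theorem CW2_ptw (hG1 : ST_GR1) (hG2 : ST_GR2) {n : ℕ} {N0 : E n → ℝ} {N : E (n + 1) → ℝ}
    {π : (ι → ℝ) → M (n + 1)} (hproj : ∀ x, HypProj (π x))
    {L : (ι → ℝ) → E n →L[ℂ] E (n + 1)} {K : (ι → ℝ) → E (n + 1) →L[ℂ] E n}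
    (hF : IsFrame N0 N π 3 L K) (Λ : Ext ι) (q j : ℕ) (c : Fin q → (M n →ₗ[ℝ] ℝ))
    (P : MvPolynomial (Fin q) ℝ) (hj : 1 ≤ j)
    (hP : ∀ Y : M n, MvPolynomial.eval (fun a => c a Y) P =
      (LinearMap.trace ℂ (E n) ((((-Complex.I) • Y) ^ j : M n) : E n →ₗ[ℂ] E n)).re) :
    ∀ᵐ x : ι → ℝ, x ∈ Metric.ball (0 : ι → ℝ) 3 →
      PF Λ c P (Fcon K L (fun _ => 0) LinearMap.id 0 x) = -(Λ.two (fpi π x)) ^ j := by
  obtain ⟨CL, hL⟩ := hF.lipL
  obtain ⟨CK, hK⟩ := hF.lipK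
  filter_upwards [hL.ae_differentiableAt, hK.ae_differentiableAt] with x hLx hKx hx
  have hnear : ∀ᶠ y in 𝓝 x, y ∈ Metric.closedBall (0 : ι → ℝ) 3 :=
    Filter.mem_of_superset (Metric.isOpen_ball.mem_nhds hx) Metric.ball_subset_closedBall
  obtain ⟨h1, h2, h3⟩ := hG1 ι n K L π x hKx hLx
    (hnear.mono fun y hy => hF.left y hy) (hnear.mono fun y hy => hF.right y hy)
    (Filter.Eventually.of_forall fun y => (hproj y).2.1)
  have hxc : x ∈ Metric.closedBall (0 : ι → ℝ) 3 := Metric.ball_subset_closedBall hx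
  have h4 := hG2 ι Λ n q j c P (K x) (L x) (π x) (fun μ => pd π x μ) hj hP (hF.left x hxc)
    (hF.right x hxc) (hproj x) h2 h3
  have h5 : Fcon K L (fun _ => 0) LinearMap.id 0 x = fun μ ν =>
      (K x).comp ((pd π x μ * pd π x ν - pd π x ν * pd π x μ).comp (L x)) := by
    funext μ ν
    exact h1 μ ν
  rw [h5, h4]
  rfl

end

theorem st_CW2 (hTRG : ST_TRG) (hG1 : ST_GR1) (hG2 : ST_GR2) (hLINE : ST_LINE) (hM : ST_MEAN)
    (hPR : ST_PROD) : ST_CW2 := by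
  intro n N0 N hS hU k hk pr hpr hQ π G hT L K hF Λ q j c P hj hP
  rw [hTRG n N0 N hS hU k hk pr hpr hQ π G hT L K hF Λ q j c P hP]
  obtain ⟨hg, hm⟩ := hLINE n N0 N hS hU π G hT L K hF Λ
  have h1 : ∫ x in cube (Ix n), PF Λ c P (Fcon K L (fun _ => 0) LinearMap.id 0 (fr x)) =
      ∫ x in cube (Ix n), -(Λ.two (fpi π x)) ^ j := by
    apply CW2_int_congr
    filter_upwards [CW2_ptw hG1 hG2 hT.proj hF Λ q j c P hj hP] with x hx hxc
    rw [CW2_fr_cube hxc]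
    apply hx
    have := CW2_fr_ball x
    rwa [CW2_fr_cube hxc] at this
  rw [h1, integral_neg]
  obtain ⟨i, rfl⟩ : ∃ i, j = i + 1 := ⟨j - 1, by omega⟩
  rw [(CW2_pow hM hPR Λ _ hg i).2, hm]

end Pool.Agent.Helper83.CB
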