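import Mathlib

/-!
# Complex Banach conjecture, algebra half: definitions

`Cpt n` : a compact group `S` of unitary `n × n` matrices together with a real space `h` of
Hermitian matrices with `exp (i h) ⊆ S`, stable under conjugation by `S` and under `i [ , ]`.
-/

namespace Pool.Agent.Helper80.CB

open Matrix MvPolynomial

abbrev Mat (n : ℕ) := Matrix (Fin n) (Fin n) ℂ

/-- A compact matrix group with a space `h` of Hermitian matrices (`i h` = part of the Lie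
algebra). -/
structure Cpt (n : ℕ) where
  S : Set (Mat n)
  h : Submodule ℝ (Mat n)
  one_mem : (1 : Mat n) ∈ S
  mul_mem : ∀ g ∈ S, ∀ g' ∈ S, g * g' ∈ S
  star_mem : ∀ g ∈ S, gᴴ ∈ S
  unit : ∀ g ∈ S, gᴴ * g = 1
  closed : IsClosed S
  herm : ∀ X ∈ h, Xᴴ = X
  exp_mem : ∀ X ∈ h, NormedSpace.exp (Complex.I • X) ∈ S
  Ad_mem : ∀ g ∈ S, ∀ X ∈ h, g * X * gᴴ ∈ h
  brk : ∀ X ∈ h, ∀ Y ∈ h, Complex.I • (X * Y - Y * X) ∈ h

/-- Every element of the group is the exponential of an element of `i h`. -/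
def Conn {n : ℕ} (D : Cpt n) : Prop :=
  ∀ g ∈ D.S, ∃ X ∈ D.h, NormedSpace.exp (Complex.I • X) = g

/-- Value of the polynomial `P` at the point `x` of a real vector space with basis `b`. -/
noncomputable def val {q : ℕ} {T : Type} [AddCommGroup T] [Module ℝ T]
    (b : Module.Basis (Fin q) ℝ T) (x : T) (P : MvPolynomial (Fin q) ℝ) : ℝ :=
  MvPolynomial.eval (fun i => b.repr x i) P

/-- `P` (a polynomial on `D.h` in the coordinates of the basis `b`) is invariant under `D.S`. -/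
def InvP {n q : ℕ} (D : Cpt n) (b : Module.Basis (Fin q) ℝ D.h)
    (P : MvPolynomial (Fin q) ℝ) : Prop :=
  ∀ g (hg : g ∈ D.S) (X : D.h), val b ⟨g * X * gᴴ, D.Ad_mem g hg X X.2⟩ P = val b X P

/-- Truncated multiplicative functional on invariant polynomials. -/
structure TruncHom {n q : ℕ} (D : Cpt n) (b : Module.Basis (Fin q) ℝ D.h)
    (φ : MvPolynomial (Fin q) ℝ →ₗ[ℝ] ℝ) : Prop where
  one : φ 1 = 1
  mul : ∀ (P Q : MvPolynomial (Fin q) ℝ) (d e : ℕ), P.IsHomogeneous d → Q.IsHomogeneous e →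
    InvP D b P → InvP D b Q → d + e ≤ n → φ (P * Q) = φ P * φ Q
  tr : ∀ j : ℕ, 1 ≤ j → j ≤ n → ∀ P : MvPolynomial (Fin q) ℝ, P.IsHomogeneous j →
    (∀ X : D.h, val b X P = (Matrix.trace ((X : Mat n) ^ j)).re) → φ P = -1

/-- The real inner product `Re tr (X* Y)`. -/
noncomputable def ip {n : ℕ} (X Y : Mat n) : ℝ := (Matrix.trace (Xᴴ * Y)).re

/-- `t` is a maximal commuting subspace of `D.h`, consisting of diagonal matrices. -/
structure Torus {n : ℕ} (D : Cpt n) (t : Submodule ℝ (Mat n)) : Prop where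
  le : t ≤ D.h
  diag : ∀ x ∈ t, ∀ i j, i ≠ j → x i j = 0
  max : ∀ X ∈ D.h, (∀ x ∈ t, X * x = x * X) → X ∈ t

/-- The `i`-th weight, a real linear functional on `t`. -/
noncomputable def wt {n : ℕ} (t : Submodule ℝ (Mat n)) (i : Fin n) : t →ₗ[ℝ] ℝ where
  toFun x := ((x : Mat n) i i).re
  map_add' x y := by simp
  map_smul' a x := by simp

/-- The Weyl group of `(D, t)`: linear automorphisms of `t` induced by elements of `D.S`. -/
def weyl {n : ℕ} (D : Cpt n) (t : Submodule ℝ (Mat n)) : Subgroup (t ≃ₗ[ℝ] t) where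
  carrier := {w | ∃ g ∈ D.S, ∀ x : t, g * (x : Mat n) * gᴴ = (w x : Mat n)}
  one_mem' := ⟨1, D.one_mem, fun x => by simp⟩
  mul_mem' := by
    rintro w w' ⟨g, hg, h1⟩ ⟨g', hg', h2⟩
    refine ⟨g * g', D.mul_mem g hg g' hg', fun x => ?_⟩
    have : g * g' * (x : Mat n) * (g * g')ᴴ = g * (g' * (x : Mat n) * g'ᴴ) * gᴴ := by
      rw [Matrix.conjTranspose_mul]; simp only [Matrix.mul_assoc]
    rw [this, h2 x, h1 (w' x)]
    rfl
  inv_mem' := by
    rintro w ⟨g, hg, h1⟩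
    refine ⟨gᴴ, D.star_mem g hg, fun x => ?_⟩
    have h2 := h1 (w⁻¹ x)
    have h3 : w (w⁻¹ x) = x := by
      change (w * w⁻¹) x = x
      rw [mul_inv_cancel]; rfl
    rw [h3] at h2
    rw [← h2, Matrix.conjTranspose_conjTranspose]
    have h4 := D.unit g hg
    calc gᴴ * (g * ((w⁻¹ x : t) : Mat n) * gᴴ) * g
        = (gᴴ * g) * ((w⁻¹ x : t) : Mat n) * (gᴴ * g) := by simp only [Matrix.mul_assoc]
      _ = _ := by rw [h4]; simp

/-- `E` is a root vector for the root `α` (a nonzero linear functional on `t`): `E` lies in the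
complexification of `D.h` and `[x, E] = α(x) E` for `x ∈ t`. -/
structure RootVec {n : ℕ} (D : Cpt n) (t : Submodule ℝ (Mat n)) (E : Mat n) (α : t →ₗ[ℝ] ℝ) :
    Prop where
  mem : ∃ A ∈ D.h, ∃ B ∈ D.h, E = A + Complex.I • B
  ne : E ≠ 0
  eig : ∀ x : t, (x : Mat n) * E - E * (x : Mat n) = ((α x : ℝ) : ℂ) • E
  root : α ≠ 0

/-- The reflection attached to a root vector. -/
def RootRefl {n : ℕ} (D : Cpt n) (t : Submodule ℝ (Mat n)) (E : Mat n) (α : t →ₗ[ℝ] ℝ) (v : t)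
    (s : t ≃ₗ[ℝ] t) : Prop :=
  RootVec D t E α ∧ (∃ c : ℝ, 0 < c ∧ (v : Mat n) = (c : ℂ) • (E * Eᴴ - Eᴴ * E)) ∧
    α v = 2 ∧ ∀ x : t, s x = x - α x • v

/-- The set of reflections attached to root vectors. -/
def reflSet {n : ℕ} (D : Cpt n) (t : Submodule ℝ (Mat n)) : Set (t ≃ₗ[ℝ] t) :=
  {s | ∃ E α v, RootRefl D t E α v s}

/-- `P` is invariant under the group `W` of linear automorphisms. -/
def WInv {q : ℕ} {T : Type} [AddCommGroup T] [Module ℝ T] (b : Module.Basis (Fin q) ℝ T)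
    (W : Subgroup (T ≃ₗ[ℝ] T)) (P : MvPolynomial (Fin q) ℝ) : Prop :=
  ∀ w ∈ W, ∀ x : T, val b (w x) P = val b x P

/-- The linear form `l` as a polynomial. -/
noncomputable def linP {q : ℕ} {T : Type} [AddCommGroup T] [Module ℝ T]
    (b : Module.Basis (Fin q) ℝ T) (l : T →ₗ[ℝ] ℝ) : MvPolynomial (Fin q) ℝ :=
  ∑ s, MvPolynomial.C (l (b s)) * MvPolynomial.X s

/-- A (possibly trivial) reflection. -/
def IsRefl {T : Type} [AddCommGroup T] [Module ℝ T] (s : T ≃ₗ[ℝ] T) : Prop :=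
  ∃ (α : T →ₗ[ℝ] ℝ) (v : T), ∀ x, s x = x - α x • v

/-- The ideal generated by homogeneous invariants of positive degree. -/
noncomputable def hilbIdeal {q : ℕ} {T : Type} [AddCommGroup T] [Module ℝ T] (b : Module.Basis (Fin q) ℝ T)
    (W : Subgroup (T ≃ₗ[ℝ] T)) : Ideal (MvPolynomial (Fin q) ℝ) :=
  Ideal.span {P | WInv b W P ∧ ∃ d : ℕ, 0 < d ∧ P.IsHomogeneous d}

/-- Value at the complex point `∑ τ_s b_s` of a real linear functional. -/
noncomputable def lval {q : ℕ} {T : Type} [AddCommGroup T] [Module ℝ T]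
    (b : Module.Basis (Fin q) ℝ T) (τ : Fin q → ℂ) (l : T →ₗ[ℝ] ℝ) : ℂ :=
  ∑ s, ((l (b s) : ℝ) : ℂ) * τ s

end Pool.Agent.Helper80.CB
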