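import Pool.Agent.Helper80.CB.Basic

/-!
# Complex Banach conjecture, algebra half: WREF and the final assembly
-/

namespace Pool.Agent.Helper80.CB

open Matrix MvPolynomial

theorem refl_unique {n : ℕ} {D : Cpt n} {t : Submodule ℝ (Mat n)} {E : Mat n}
    {α : t →ₗ[ℝ] ℝ} {v v' : t} {s s' : t ≃ₗ[ℝ] t} (h : RootRefl D t E α v s)
    (h' : RootRefl D t E α v' s') : s = s' := by
  obtain ⟨-, ⟨c, hc, hv⟩, hα, hs⟩ := h
  obtain ⟨-, ⟨c', hc', hv'⟩, hα', hs'⟩ := h'
  have h1 : v' = (c' / c) • v := by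
    apply Subtype.ext
    rw [hv', Submodule.coe_smul, hv]
    have : ((c' / c : ℝ) • ((c : ℂ) • (E * Eᴴ - Eᴴ * E)) : Mat n)
        = (((c' / c : ℝ) : ℂ) * (c : ℂ)) • (E * Eᴴ - Eᴴ * E) := by
      rw [mul_smul]
      ext i j
      simp [Matrix.smul_apply]
    rw [this, ← Complex.ofReal_mul, div_mul_cancel₀ _ hc.ne']
  have h2 : (c' / c) = 1 := by
    rw [h1, map_smul, hα, smul_eq_mul] at hα'
    linarith
  have h3 : v' = v := by rw [h1, h2, one_smul]
  ext x
  rw [hs, hs', h3]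

theorem reflSet_sub (h3 : ST_RREF) {n : ℕ} {D : Cpt n} {t : Submodule ℝ (Mat n)}
    (ht : Torus D t) : reflSet D t ⊆ (weyl D t : Set (t ≃ₗ[ℝ] t)) := by
  rintro s ⟨E, α, v, hs⟩
  obtain ⟨s', hs', v', h'⟩ := h3 n D t ht E α hs.1
  rw [refl_unique hs h']
  exact hs'

theorem st_WREF (h1 : ST_CHAMB) (h2 : ST_FIX) (h3 : ST_RREF) : ST_WREF := by
  intro n D t hD ht
  apply le_antisymm
  · intro w hw
    obtain ⟨v, hv, y, hy⟩ := h1 n D t ht w hw
    have hv' : v ∈ weyl D t := (Subgroup.closure_le _).mpr (reflSet_sub h3 ht) hv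
    have h4 : v * w = 1 := h2 n D t hD ht (v * w) (mul_mem hv' hw) y (fun E α hE => hy E α hE)
    have h5 : w = v⁻¹ := eq_inv_of_mul_eq_one_right h4
    rw [h5]
    exact inv_mem hv
  · exact (Subgroup.closure_le _).mpr (reflSet_sub h3 ht)

theorem weyl_refl (h3 : ST_RREF) {n : ℕ} {D : Cpt n} {t : Submodule ℝ (Mat n)}
    (ht : Torus D t) (hW : weyl D t = Subgroup.closure (reflSet D t)) :
    weyl D t = Subgroup.closure {s | s ∈ weyl D t ∧ IsRefl s} := by
  apply le_antisymm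
  · conv_lhs => rw [hW]
    refine (Subgroup.closure_le _).mpr fun s hs => Subgroup.subset_closure ⟨reflSet_sub h3 ht hs, ?_⟩
    obtain ⟨E, α, v, h⟩ := hs
    exact ⟨α, v, h.2.2.2⟩
  · exact (Subgroup.closure_le _).mpr fun s hs => hs.1

theorem inv_unique (hREG : ST_REG) {n q : ℕ} {D : Cpt n} {t : Submodule ℝ (Mat n)}
    (ht : Torus D t) (b : Module.Basis (Fin q) ℝ D.h) {P Q : MvPolynomial (Fin q) ℝ}
    (hP : InvP D b P) (hQ : InvP D b Q)
    (h : ∀ x : t, val b (⟨x, ht.le x.2⟩ : D.h) P = val b (⟨x, ht.le x.2⟩ : D.h) Q) : P = Q := by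
  apply val_ext b
  intro X
  obtain ⟨g, hg, hgX⟩ := hREG n D t ht X X.2
  rw [← hP g hg X, ← hQ g hg X]
  exact h ⟨_, hgX⟩

theorem invP_component {n q : ℕ} {D : Cpt n} (b : Module.Basis (Fin q) ℝ D.h)
    {P : MvPolynomial (Fin q) ℝ} (hP : InvP D b P) (k : ℕ) :
    InvP D b (MvPolynomial.homogeneousComponent k P) := by
  intro g hg X
  apply component_eq b b
  intro a
  have := hP g hg (a • X)
  rw [← this]
  congr 1
  apply Subtype.ext
  simp

theorem invP_mul {n q : ℕ} {D : Cpt n} (b : Module.Basis (Fin q) ℝ D.h)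
    {P Q : MvPolynomial (Fin q) ℝ} (hP : InvP D b P) (hQ : InvP D b Q) : InvP D b (P * Q) := by
  intro g hg X
  rw [val_mul, val_mul, hP g hg X, hQ g hg X]

theorem invP_add {n q : ℕ} {D : Cpt n} (b : Module.Basis (Fin q) ℝ D.h)
    {P Q : MvPolynomial (Fin q) ℝ} (hP : InvP D b P) (hQ : InvP D b Q) : InvP D b (P + Q) := by
  intro g hg X
  rw [val_add, val_add, hP g hg X, hQ g hg X]

theorem invP_smul {n q : ℕ} {D : Cpt n} (b : Module.Basis (Fin q) ℝ D.h)
    {P : MvPolynomial (Fin q) ℝ} (hP : InvP D b P) (a : ℝ) : InvP D b (a • P) := by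
  intro g hg X
  rw [val_smul, val_smul, hP g hg X]

theorem invP_one {n q : ℕ} {D : Cpt n} (b : Module.Basis (Fin q) ℝ D.h) : InvP D b 1 := by
  intro g hg X
  rw [val_one, val_one]

/-- The data transported to the torus. -/
theorem exists_tau (hREG : ST_REG) (hREST : ST_REST) (hCST : ST_CST) (hTAU : ST_TAU)
    (hTRP : ST_TRP) (hRREF : ST_RREF) (hWFIN : ST_WFIN)
    {n q r : ℕ} {D : Cpt n} {t : Submodule ℝ (Mat n)}
    (ht : Torus D t) (hW : weyl D t = Subgroup.closure (reflSet D t))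
    (b : Module.Basis (Fin q) ℝ D.h) (c : Module.Basis (Fin r) ℝ t)
    (φ : MvPolynomial (Fin q) ℝ →ₗ[ℝ] ℝ) (hφ : TruncHom D b φ) :
    ∃ τ : Fin r → ℂ, (∀ j : ℕ, 1 ≤ j → j ≤ n → ∑ i, lval c τ (wt t i) ^ j = -1) ∧
      (∀ P, WInv c (weyl D t) P → ∃ a : ℝ, aeval τ P = (a : ℂ)) := by
  classical
  have hfin := hWFIN n D t ht
  obtain ⟨m, f, d, hf1, hf2, hf3, hf4, hf5⟩ :=
    hCST r t c (weyl D t) hfin (weyl_refl hRREF ht hW)
  -- the lift
  have hlift := fun (p : MvPolynomial (Fin r) ℝ) (hp : WInv c (weyl D t) p) =>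
    hREST n q r D t ht b c p hp
  choose! L hL1 hL2 using hlift
  have hWadd : ∀ P Q : MvPolynomial (Fin r) ℝ, WInv c (weyl D t) P → WInv c (weyl D t) Q →
      WInv c (weyl D t) (P + Q) := by
    intro P Q hP hQ w hw x
    rw [val_add, val_add, hP w hw, hQ w hw]
  have hWmul : ∀ P Q : MvPolynomial (Fin r) ℝ, WInv c (weyl D t) P → WInv c (weyl D t) Q →
      WInv c (weyl D t) (P * Q) := by
    intro P Q hP hQ w hw x
    rw [val_mul, val_mul, hP w hw, hQ w hw]
  have hWsmul : ∀ (a : ℝ) (P : MvPolynomial (Fin r) ℝ), WInv c (weyl D t) P →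
      WInv c (weyl D t) (a • P) := by
    intro a P hP w hw x
    rw [val_smul, val_smul, hP w hw]
  have hWone : WInv c (weyl D t) (1 : MvPolynomial (Fin r) ℝ) := by
    intro w hw x
    rw [val_one, val_one]
  have huniq : ∀ (p : MvPolynomial (Fin r) ℝ) (P : MvPolynomial (Fin q) ℝ),
      WInv c (weyl D t) p → InvP D b P →
      (∀ x : t, val b (⟨x, ht.le x.2⟩ : D.h) P = val c x p) → L p = P := by
    intro p P hp hP h
    apply inv_unique hREG ht b (hL1 p hp) hP
    intro x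
    rw [hL2 p hp x, h x]
  have hLh : ∀ (p : MvPolynomial (Fin r) ℝ) (k : ℕ), WInv c (weyl D t) p →
      p.IsHomogeneous k → (L p).IsHomogeneous k := by
    intro p k hp hk
    have h1 : L p = MvPolynomial.homogeneousComponent k (L p) := by
      apply huniq p _ hp (invP_component b (hL1 p hp) k)
      intro x
      have h2 : val b (⟨x, ht.le x.2⟩ : D.h) (MvPolynomial.homogeneousComponent k (L p)) =
          val c x (MvPolynomial.homogeneousComponent k p) := by
        apply component_eq b c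
        intro a
        rw [← hL2 p hp (a • x)]
        rfl
      rw [h2, MvPolynomial.homogeneousComponent_of_mem hk, if_pos rfl]
    rw [h1]
    exact MvPolynomial.homogeneousComponent_isHomogeneous k _
  obtain ⟨τ, hτ1, hτ2⟩ := hTAU r t c (weyl D t) hfin m f d hf1 hf2 hf3 hf4 hf5 n
    (fun p => φ (L p))
    (by
      have : L 1 = 1 := huniq 1 1 hWone (invP_one b) (fun x => by rw [val_one, val_one])
      show φ (L 1) = 1
      rw [this, hφ.one])
    (by
      intro P Q d e hP hQ hP' hQ' hde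
      have : L (P * Q) = L P * L Q := huniq _ _ (hWmul P Q hP' hQ')
        (invP_mul b (hL1 P hP') (hL1 Q hQ'))
        (fun x => by rw [val_mul, val_mul, hL2 P hP', hL2 Q hQ'])
      show φ (L (P * Q)) = φ (L P) * φ (L Q)
      rw [this]
      exact hφ.mul _ _ d e (hLh P d hP' hP) (hLh Q e hQ' hQ) (hL1 P hP') (hL1 Q hQ') hde)
    (by
      intro P Q d hP hQ hP' hQ' hd
      have : L (P + Q) = L P + L Q := huniq _ _ (hWadd P Q hP' hQ')
        (invP_add b (hL1 P hP') (hL1 Q hQ'))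
        (fun x => by rw [val_add, val_add, hL2 P hP', hL2 Q hQ'])
      show φ (L (P + Q)) = φ (L P) + φ (L Q)
      rw [this, map_add])
    (by
      intro a P d hP hP' hd
      have : L (a • P) = a • L P := huniq _ _ (hWsmul a P hP')
        (invP_smul b (hL1 P hP') a)
        (fun x => by rw [val_smul, val_smul, hL2 P hP'])
      show φ (L (a • P)) = a * φ (L P)
      rw [this, map_smul, smul_eq_mul])
  refine ⟨τ, ?_, hτ2⟩
  intro j hj1 hj2
  obtain ⟨P, hP1, hP2, hP3⟩ := hTRP n q D b j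
  -- the power sum of weights
  set p : MvPolynomial (Fin r) ℝ := ∑ i, linP c (wt t i) ^ j with hp
  have hph : p.IsHomogeneous j := by
    rw [hp]
    refine MvPolynomial.IsHomogeneous.sum _ _ _ fun i _ => ?_
    have := (linP_homog c (wt t i)).pow j
    simpa using this
  have hpv : ∀ x : t, val b (⟨x, ht.le x.2⟩ : D.h) P = val c x p := by
    intro x
    have h1 := hP3 (⟨x, ht.le x.2⟩ : D.h)
    have h2 : val c x p = ∑ i, (wt t i x) ^ j := by
      rw [hp, val_sum]
      refine Finset.sum_congr rfl fun i _ => ?_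
      rw [val_pow, linP_eval]
    have h3 : (x : Mat n) = Matrix.diagonal (fun i => ((wt t i x : ℝ) : ℂ)) := by
      ext i k
      by_cases hik : i = k
      · subst hik
        rw [Matrix.diagonal_apply_eq]
        have h4 := D.herm x (ht.le x.2)
        have h5 : (starRingEnd ℂ) ((x : Mat n) i i) = (x : Mat n) i i := by
          have := congrFun (congrFun h4 i) i
          simpa [Matrix.conjTranspose_apply] using this
        exact (Complex.conj_eq_iff_re.mp h5).symm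
      · rw [Matrix.diagonal_apply_ne _ hik]
        exact ht.diag x x.2 i k hik
    have h4 : Matrix.trace ((x : Mat n) ^ j) = ((∑ i, (wt t i x) ^ j : ℝ) : ℂ) := by
      rw [h3, Matrix.diagonal_pow, Matrix.trace_diagonal]
      push_cast
      refine Finset.sum_congr rfl fun i _ => ?_
      simp [wt]
    rw [h2]
    have h5 := h1.symm.trans h4
    exact_mod_cast h5
  have hpW : WInv c (weyl D t) p := by
    intro w hw x
    obtain ⟨g, hg, hgw⟩ := hw
    rw [← hpv, ← hpv]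
    have h1 := hP2 g hg (⟨x, ht.le x.2⟩ : D.h)
    rw [← h1]
    congr 1
    apply Subtype.ext
    exact (hgw x).symm
  have h6 := hτ1 p j hph hj2 hpW
  have h7 : L p = P := huniq p P hpW hP2 hpv
  have h8 : φ (L p) = -1 := by
    rw [h7]
    refine hφ.tr j hj1 hj2 P hP1 fun X => ?_
    rw [hP3 X, Complex.ofReal_re]
  have h9 : aeval τ p = ∑ i, lval c τ (wt t i) ^ j := by
    rw [hp, map_sum]
    refine Finset.sum_congr rfl fun i _ => ?_
    rw [map_pow, aeval_linP]
  rw [← h9, h6]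
  show ((φ (L p) : ℝ) : ℂ) = -1
  rw [h8]
  norm_num

theorem st_ALG (hTOR : ST_TOR) (hTRANS : ST_TRANS) (hREG : ST_REG) (hREST : ST_REST)
    (hCST : ST_CST) (hTAU : ST_TAU) (hTRP : ST_TRP) (hRREF : ST_RREF) (hWFIN : ST_WFIN)
    (hWREF : ST_WREF) (hORB : ST_ORB) (hNEWT : ST_NEWT) (hODD : ST_ODD) (hONE : ST_ONE)
    (hSU2 : ST_SU2) : ST_ALG := by
  classical
  intro n hn D hD q b φ hφ
  obtain ⟨u, D', t, hu, hS, hh, ht⟩ := hTOR n D
  obtain ⟨hD', hb'⟩ := hTRANS n D D' u hu hS hh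
  obtain ⟨b', hφ'⟩ := hb' q b φ hφ
  have hconn := hD' hD
  have : Module.Finite ℝ t := inferInstance
  set c := Module.finBasis ℝ t with hc
  have hW := hWREF n D' t hconn ht
  obtain ⟨τ, hτ1, hτ2⟩ := exists_tau hREG hREST hCST hTAU hTRP hRREF hWFIN ht hW b' c φ hφ'
  obtain ⟨hinj, hnorm, π, hπ1, hπ2⟩ := hNEWT n hn (fun i => lval c τ (wt t i)) hτ1
  obtain ⟨w, hw, hw2⟩ := hORB _ t c (weyl D' t) (hWFIN n D' t ht) τ hτ2
  obtain ⟨E, α, v, s, σ, hs1, hs2, hs3⟩ :=
    hODD n _ D' t ht hW c τ hinj w hw hw2 π hπ1 hπ2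
  obtain ⟨i, j, a, hij, ha, hE⟩ := hONE n _ D' t ht c τ hinj hnorm E α v s σ hs1 hs2 hs3
  obtain ⟨A, hA, B, hB, hAB⟩ := hs1.1.mem
  have huu : u * uᴴ = 1 := mul_eq_one_comm.mp hu
  have hsu := hSU2 n D' i j a hij ha ⟨A, hA, B, hB, by rw [← hE, hAB]⟩
  refine ⟨uᴴ *ᵥ Pi.single i 1, uᴴ *ᵥ Pi.single j 1, ?_, ?_, ?_, ?_⟩
  · rw [Matrix.star_mulVec, Matrix.conjTranspose_conjTranspose, ← Matrix.dotProduct_mulVec,
      Matrix.mulVec_mulVec, huu, Matrix.one_mulVec]
    simp
  · rw [Matrix.star_mulVec, Matrix.conjTranspose_conjTranspose, ← Matrix.dotProduct_mulVec,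
      Matrix.mulVec_mulVec, huu, Matrix.one_mulVec]
    simp
  · rw [Matrix.star_mulVec, Matrix.conjTranspose_conjTranspose, ← Matrix.dotProduct_mulVec,
      Matrix.mulVec_mulVec, huu, Matrix.one_mulVec]
    simp [hij]
  · intro a₁ b₁ a₂ b₂ hab
    obtain ⟨g, hg, hg1, hg2⟩ := hsu (a₁ • Pi.single i 1 + b₁ • Pi.single j 1)
      (a₂ • Pi.single i 1 + b₂ • Pi.single j 1)
      (by
        intro k hki hkj
        simp [hki, hkj])
      (by
        simpa [Pi.single_apply, hij, hij.symm] using hab)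
    refine ⟨uᴴ * g * u, (hS g).mp hg, ?_, ?_⟩
    · have h1 : (uᴴ * g * u) *ᵥ (a₁ • (uᴴ *ᵥ Pi.single i 1) + b₁ • (uᴴ *ᵥ Pi.single j 1)) =
          uᴴ *ᵥ (g *ᵥ (a₁ • Pi.single i 1 + b₁ • Pi.single j 1)) := by
        rw [← Matrix.mulVec_smul, ← Matrix.mulVec_smul, ← Matrix.mulVec_add, Matrix.mulVec_mulVec,
          Matrix.mulVec_mulVec]
        congr 1
        rw [Matrix.mul_assoc, huu, Matrix.mul_one]
      rw [h1, hg1, Matrix.mulVec_add, Matrix.mulVec_smul, Matrix.mulVec_smul]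
    · intro y hy1 hy2
      have h1 : (u *ᵥ y) i = 0 := by
        rw [Matrix.star_mulVec, Matrix.conjTranspose_conjTranspose,
          ← Matrix.dotProduct_mulVec] at hy1
        simpa using hy1
      have h2 : (u *ᵥ y) j = 0 := by
        rw [Matrix.star_mulVec, Matrix.conjTranspose_conjTranspose,
          ← Matrix.dotProduct_mulVec] at hy2
        simpa using hy2
      have h3 := hg2 (u *ᵥ y) h1 h2
      rw [← Matrix.mulVec_mulVec, ← Matrix.mulVec_mulVec, h3, Matrix.mulVec_mulVec, hu,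
        Matrix.one_mulVec]

end Pool.Agent.Helper80.CB
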