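import Pool.Agent.Helper80.CB.CW2

/-!
# LINE
-/

open Filter Topology MeasureTheory

namespace Pool.Agent.Helper83.CB

section
variable {ι : Type} [Fintype ι] [DecidableEq ι]

set_option linter.unusedSectionVars false

theorem LINE_pd_zero {W : Type*} [NormedAddCommGroup W] [NormedSpace ℝ W] {f : (ι → ℝ) → W}
    {x : ι → ℝ} {μ : ι} (h : ∀ s, f (Function.update x μ s) = f x) : pd f x μ = 0 := by
  unfold pd
  by_cases hd : DifferentiableAt ℝ f x
  · have h1 : HasDerivAt (fun s : ℝ => x + s • (Pi.single μ (1 : ℝ) : ι → ℝ))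
        (Pi.single μ (1 : ℝ) : ι → ℝ) 0 := by
      have := (hasDerivAt_id (0:ℝ)).smul_const (Pi.single μ (1 : ℝ) : ι → ℝ)
      simpa using this.const_add x
    have h2 : HasFDerivAt f (fderiv ℝ f x) (x + (0:ℝ) • (Pi.single μ (1 : ℝ) : ι → ℝ)) := by
      simpa using hd.hasFDerivAt
    have h3 := h2.comp_hasDerivAt (0:ℝ) h1
    have h4 : (f ∘ fun s : ℝ => x + s • (Pi.single μ (1 : ℝ) : ι → ℝ)) = fun _ => f x := by
      funext s
      have : x + s • (Pi.single μ (1 : ℝ) : ι → ℝ) = Function.update x μ (x μ + s) := by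
        funext i
        by_cases hi : i = μ
        · subst hi; simp
        · simp [hi]
      show f (x + s • (Pi.single μ (1 : ℝ) : ι → ℝ)) = f x
      rw [this, h]
    rw [h4] at h3
    exact h3.unique (hasDerivAt_const (0:ℝ) (f x))
  · rw [fderiv_zero_of_not_differentiableAt hd]
    rfl

theorem LINE_pd_per {W : Type*} [NormedAddCommGroup W] [NormedSpace ℝ W] {f : (ι → ℝ) → W}
    {a : ι → ℝ} (h : ∀ x, f (x + a) = f x) (x : ι → ℝ) (μ : ι) : pd f (x + a) μ = pd f x μ := by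
  unfold pd
  have h1 : (fun y => f (y + a)) = f := funext h
  conv_rhs => rw [← h1]
  rw [fderiv_comp_add_right]

theorem LINE_pd_perm {W : Type*} [NormedAddCommGroup W] [NormedSpace ℝ W] {f : (ι → ℝ) → W}
    {τ : Equiv.Perm ι} (h : ∀ x, f (x ∘ τ) = f x) (x : ι → ℝ) (μ : ι) :
    pd f (x ∘ τ) μ = pd f x (τ μ) := by
  unfold pd
  let T : (ι → ℝ) ≃L[ℝ] (ι → ℝ) :=
    (LinearEquiv.funCongrLeft ℝ ℝ τ).toContinuousLinearEquiv
  have hT : ∀ y, T y = y ∘ τ := fun y => rfl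
  have h1 : f ∘ T = f := by
    funext y
    exact h y
  have h2 : fderiv ℝ f x = (fderiv ℝ f (T x)).comp (T : (ι → ℝ) →L[ℝ] (ι → ℝ)) := by
    conv_lhs => rw [← h1]
    exact T.comp_right_fderiv
  rw [h2, hT]
  show fderiv ℝ f (x ∘ τ) (Pi.single μ 1) = fderiv ℝ f (x ∘ τ) (T (Pi.single (τ μ) 1))
  congr 1
  rw [hT]
  funext i
  by_cases hi : i = μ
  · subst hi; simp
  · have : τ i ≠ τ μ := fun hh => hi (τ.injective hh)
    simp [hi, Function.comp, this]

theorem LINE_fr_ae {p : (ι → ℝ) → Prop} (h : ∀ᵐ x, p x) : ∀ᵐ x, p (fr x) := by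
  have h1 : ∀ m : ι → ℤ, ∀ᵐ x : ι → ℝ, p (x + fun i => -(m i : ℝ)) := fun m =>
    (measurePreserving_add_right volume (fun i => -(m i : ℝ))).quasiMeasurePreserving.ae h
  have h2 := ae_all_iff.mpr h1
  filter_upwards [h2] with x hx
  have := hx fun i => ⌊x i⌋
  have e : (x + fun i => -((⌊x i⌋ : ℤ) : ℝ)) = fr x := by
    funext i
    show x i + -((⌊x i⌋ : ℤ) : ℝ) = Int.fract (x i)
    rw [Int.fract]
    ring
  rwa [e] at this

theorem LINE_fpi_anti {m : ℕ} (π : (ι → ℝ) → M m) (x : ι → ℝ) (μ ν : ι) :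
    fpi π x μ ν = -fpi π x ν μ := by
  have h : (1 - π x) * (pd π x μ * pd π x ν - pd π x ν * pd π x μ) =
      -((1 - π x) * (pd π x ν * pd π x μ - pd π x μ * pd π x ν)) := by
    rw [mul_sub, mul_sub, neg_sub]
  unfold fpi
  rw [h, ContinuousLinearMap.toLinearMap_neg, map_neg, mul_neg, Complex.neg_re]

theorem LINE_fpi_zero {m : ℕ} {π : (ι → ℝ) → M m} {x : ι → ℝ} {μ : ι} (h : pd π x μ = 0)
    (ν : ι) : fpi π x μ ν = 0 ∧ fpi π x ν μ = 0 := by
  unfold fpi
  rw [h]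
  simp

theorem LINE_two_smul_one (Λ : Ext ι) (φ : ι → ι → ℝ) : Λ.two φ =
    (1 / 2 : ℝ) • ∑ μ, ∑ ν, φ μ ν • (Λ.e μ * Λ.e ν) := rfl

theorem LINE_two_int (Λ : Ext ι) {φ : (ι → ℝ) → ι → ι → ℝ}
    (h : ∀ μ ν, IntegrableOn (fun x => φ x μ ν) (cube ι)) :
    ∫ x in cube ι, Λ.two (φ x) = Λ.two fun μ ν => ∫ x in cube ι, φ x μ ν := by
  unfold Ext.two
  rw [integral_smul, integral_finsetSum]
  · congr 1
    refine Finset.sum_congr rfl fun μ _ => ?_
    rw [integral_finsetSum]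
    · refine Finset.sum_congr rfl fun ν _ => ?_
      rw [integral_smul_const]
    · intro ν _
      exact (h μ ν).smul_const _
  · intro μ _
    exact integrable_finsetSum _ fun ν _ => (h μ ν).smul_const _

theorem LINE_two_num (Λ : Ext ι) (φ : ι → ι → ℝ) :
    Λ.num * Λ.two φ - Λ.two φ * Λ.num = (2 : ℝ) • Λ.two φ := by
  have h1 : ∀ ν, Λ.num * Λ.e ν = Λ.e ν + Λ.e ν * Λ.num := by
    intro ν
    unfold Ext.num
    rw [Finset.sum_mul, Finset.mul_sum]
    have : ∀ μ ∈ Finset.univ, Λ.e μ * Λ.c μ * Λ.e ν =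
        (if μ = ν then Λ.e μ else 0) + Λ.e ν * (Λ.e μ * Λ.c μ) := by
      intro μ _
      have h2 := Λ.ce μ ν
      have h3 : Λ.c μ * Λ.e ν = (if μ = ν then 1 else 0) - Λ.e ν * Λ.c μ := by
        rw [← h2]; abel
      rw [mul_assoc, h3, mul_sub, ← mul_assoc, Λ.ee μ ν]
      split_ifs
      · rw [mul_one, neg_mul, sub_neg_eq_add, mul_assoc]
      · rw [mul_zero, neg_mul, sub_neg_eq_add, mul_assoc]
    rw [Finset.sum_congr rfl this, Finset.sum_add_distrib, Finset.sum_ite_eq' Finset.univ ν]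
    simp
  have h2 : ∀ μ ν, Λ.num * (Λ.e μ * Λ.e ν) - (Λ.e μ * Λ.e ν) * Λ.num =
      (2 : ℝ) • (Λ.e μ * Λ.e ν) := by
    intro μ ν
    rw [← mul_assoc, h1 μ, add_mul, mul_assoc (Λ.e μ) Λ.num (Λ.e ν), h1 ν, mul_add, two_smul]
    simp only [mul_assoc]
    abel
  unfold Ext.two
  rw [mul_smul_comm, smul_mul_assoc, ← smul_sub, smul_comm (2:ℝ) (1/2:ℝ)]
  congr 1
  rw [Finset.mul_sum, Finset.sum_mul, ← Finset.sum_sub_distrib, Finset.smul_sum]
  refine Finset.sum_congr rfl fun μ _ => ?_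
  rw [Finset.mul_sum, Finset.sum_mul, ← Finset.sum_sub_distrib, Finset.smul_sum]
  refine Finset.sum_congr rfl fun ν _ => ?_
  rw [mul_smul_comm, smul_mul_assoc, ← smul_sub, h2, smul_comm]

theorem LINE_two_U (Λ : Ext ι) (φ : ι → ι → ℝ) (τ : Equiv.Perm ι)
    (h : ∀ μ ν, φ (τ μ) (τ ν) = φ μ ν) : Λ.two φ * Λ.U τ = Λ.U τ * Λ.two φ := by
  have h1 : Λ.U τ * Λ.two φ = Λ.two φ * Λ.U τ := by
    unfold Ext.two
    rw [mul_smul_comm, smul_mul_assoc]
    congr 1
    rw [Finset.mul_sum, Finset.sum_mul]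
    have e1 : ∀ μ, Λ.U τ * ∑ ν, φ μ ν • (Λ.e μ * Λ.e ν) =
        (∑ ν, φ (τ μ) ν • (Λ.e (τ μ) * Λ.e ν)) * Λ.U τ := by
      intro μ
      rw [Finset.mul_sum, Finset.sum_mul]
      rw [← Equiv.sum_comp τ (fun ν => φ (τ μ) ν • (Λ.e (τ μ) * Λ.e ν) * Λ.U τ)]
      refine Finset.sum_congr rfl fun ν _ => ?_
      rw [mul_smul_comm, smul_mul_assoc, h, ← mul_assoc, Λ.Ue, mul_assoc, Λ.Ue, mul_assoc]
    rw [Finset.sum_congr rfl fun μ _ => e1 μ]
    rw [Equiv.sum_comp τ (fun μ => (∑ ν, φ μ ν • (Λ.e μ * Λ.e ν)) * Λ.U τ)]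
  exact h1.symm

theorem LINE_two_c (Λ : Ext ι) (φ : ι → ι → ℝ) (μ : ι) (h : ∀ ν, φ μ ν = 0 ∧ φ ν μ = 0) :
    Λ.c μ * Λ.two φ = Λ.two φ * Λ.c μ := by
  unfold Ext.two
  rw [mul_smul_comm, smul_mul_assoc]
  congr 1
  rw [Finset.mul_sum, Finset.sum_mul]
  refine Finset.sum_congr rfl fun α _ => ?_
  rw [Finset.mul_sum, Finset.sum_mul]
  refine Finset.sum_congr rfl fun β _ => ?_
  by_cases hα : α = μ
  · subst hα
    rw [(h β).1, zero_smul, mul_zero, zero_mul]
  by_cases hβ : β = μ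
  · subst hβ
    rw [(h α).2, zero_smul, mul_zero, zero_mul]
  rw [mul_smul_comm, smul_mul_assoc]
  congr 1
  have h1 : Λ.c μ * Λ.e α = -(Λ.e α * Λ.c μ) := by
    have := Λ.ce μ α
    rw [if_neg (Ne.symm hα)] at this
    exact eq_neg_of_add_eq_zero_left this
  have h2 : Λ.c μ * Λ.e β = -(Λ.e β * Λ.c μ) := by
    have := Λ.ce μ β
    rw [if_neg (Ne.symm hβ)] at this
    exact eq_neg_of_add_eq_zero_left this
  rw [← mul_assoc, h1, neg_mul, mul_assoc, h2, mul_neg, neg_neg, mul_assoc]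

end

section
variable {ι : Type} [Fintype ι] [DecidableEq ι]

set_option linter.unusedSectionVars false

/-- the linear functional `Y ↦ -i tr Y` -/
noncomputable def LINE_T (m : ℕ) : M m →ₗ[ℂ] ℂ :=
  (-Complex.I) • (LinearMap.trace ℂ (E m) ∘ₗ ContinuousLinearMap.coeLM ℂ)

noncomputable def LINE_tr (m : ℕ) : M m →L[ℂ] ℂ := LinearMap.toContinuousLinearMap (LINE_T m)

theorem LINE_fpi_eq {m : ℕ} (π : (ι → ℝ) → M m) (x : ι → ℝ) (μ ν : ι) :
    fpi π x μ ν =
      (LINE_tr m ((1 - π x) * (pd π x μ * pd π x ν - pd π x ν * pd π x μ))).re := by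
  unfold fpi LINE_tr LINE_T
  rfl

theorem LINE_fpi_meas {m : ℕ} {π : (ι → ℝ) → M m} (h : ∃ C, LipschitzWith C π) (μ ν : ι) :
    Measurable fun x => fpi π x μ ν := by
  obtain ⟨C, hC⟩ := h
  have h1 : Measurable π := hC.continuous.measurable
  have h2 : ∀ μ, Measurable fun x => pd π x μ := fun μ =>
    measurable_fderiv_apply_const ℝ π (Pi.single μ 1)
  have h3 : Measurable fun x => ((π x, pd π x μ), pd π x ν) := (h1.prodMk (h2 μ)).prodMk (h2 ν)
  have h4 : Continuous fun p : (M m × M m) × M m =>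
      (LINE_tr m ((1 - p.1.1) * (p.1.2 * p.2 - p.2 * p.1.2))).re := by
    refine Complex.continuous_re.comp ((LINE_tr m).continuous.comp ?_)
    fun_prop
  have h5 := h4.measurable.comp h3
  have h6 : (fun x => fpi π x μ ν) = (fun p : (M m × M m) × M m =>
      (LINE_tr m ((1 - p.1.1) * (p.1.2 * p.2 - p.2 * p.1.2))).re) ∘
      fun x => ((π x, pd π x μ), pd π x ν) := by
    funext x
    exact LINE_fpi_eq π x μ ν
  rw [h6]
  exact h5

theorem LINE_norm_proj {m : ℕ} {p : M m} (h : HypProj p) : ‖p‖ ≤ 1 := by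
  have h1 : ‖p‖ * ‖p‖ = ‖p‖ := by
    have := CStarRing.norm_star_mul_self (x := p)
    rw [h.2.1, h.1] at this
    exact this.symm
  nlinarith [norm_nonneg p]

theorem LINE_pd_bdd {W : Type*} [NormedAddCommGroup W] [NormedSpace ℝ W] {f : (ι → ℝ) → W}
    {C : NNReal} (h : LipschitzWith C f) (x : ι → ℝ) (μ : ι) : ‖pd f x μ‖ ≤ C := by
  unfold pd
  have h1 := norm_fderiv_le_of_lipschitz ℝ h (x₀ := x)
  have h2 : ‖(Pi.single μ (1 : ℝ) : ι → ℝ)‖ ≤ 1 := by
    rw [pi_norm_le_iff_of_nonneg zero_le_one]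
    intro i
    by_cases hi : i = μ
    · subst hi; simp
    · simp [hi]
  calc ‖fderiv ℝ f x (Pi.single μ 1)‖ ≤ ‖fderiv ℝ f x‖ * ‖(Pi.single μ (1 : ℝ) : ι → ℝ)‖ :=
        ContinuousLinearMap.le_opNorm _ _
    _ ≤ C * 1 := mul_le_mul h1 h2 (norm_nonneg _) C.2
    _ = C := mul_one _

theorem LINE_fpi_bdd {m : ℕ} {π : (ι → ℝ) → M m} (h : ∃ C, LipschitzWith C π)
    (hp : ∀ x, HypProj (π x)) : ∃ C : ℝ, ∀ x μ ν, |fpi π x μ ν| ≤ C := by
  obtain ⟨C, hC⟩ := h
  refine ⟨‖LINE_tr m‖ * (2 * (C * C + C * C)), fun x μ ν => ?_⟩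
  rw [LINE_fpi_eq]
  refine (Complex.abs_re_le_norm _).trans ((ContinuousLinearMap.le_opNorm _ _).trans ?_)
  refine mul_le_mul_of_nonneg_left ?_ (norm_nonneg _)
  have h1 : ‖(1 : M m) - π x‖ ≤ 2 := by
    have h2 : ‖(1 : M m)‖ ≤ 1 := ContinuousLinearMap.norm_id_le
    calc ‖(1 : M m) - π x‖ ≤ ‖(1 : M m)‖ + ‖π x‖ := norm_sub_le _ _
      _ ≤ 1 + 1 := add_le_add h2 (LINE_norm_proj (hp x))
      _ = 2 := by norm_num
  have h3 : ∀ μ ν, ‖pd π x μ * pd π x ν‖ ≤ C * C := fun μ ν =>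
    (norm_mul_le _ _).trans (mul_le_mul (LINE_pd_bdd hC x μ) (LINE_pd_bdd hC x ν) (norm_nonneg _)
      C.2)
  calc ‖(1 - π x) * (pd π x μ * pd π x ν - pd π x ν * pd π x μ)‖
      ≤ ‖1 - π x‖ * ‖pd π x μ * pd π x ν - pd π x ν * pd π x μ‖ := norm_mul_le _ _
    _ ≤ 2 * (C * C + C * C) := by
        refine mul_le_mul h1 ?_ (norm_nonneg _) (by norm_num)
        exact (norm_sub_le _ _).trans (add_le_add (h3 μ ν) (h3 ν μ))

theorem LINE_good (hEV : ST_EV) (hEVEN : ST_EVEN) (hWC : ST_WC) (hTRP : ST_TRP) (hG1 : ST_GR1)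
    (hG2 : ST_GR2) (hGLUE : ST_GLUE) {n : ℕ} {N0 : E n → ℝ} {N : E (n + 1) → ℝ}
    {π : (ι → ℝ) → M (n + 1)} (hlip : ∃ C, LipschitzWith C π) (hproj : ∀ x, HypProj (π x))
    (hper : ∀ x μ, π (x + Pi.single μ 1) = π x)
    {L : (ι → ℝ) → E n →L[ℂ] E (n + 1)} {K : (ι → ℝ) → E (n + 1) →L[ℂ] E n}
    (hF : IsFrame N0 N π 3 L K) (Λ : Ext ι) : Good Λ (fun x => Λ.two (fpi π x)) := by
  obtain ⟨q, c, hc⟩ := hTRP n
  obtain ⟨P, hPh, hP⟩ := hc 1
  have hptw := CW2_ptw hG1 hG2 hproj hF Λ q 1 c P le_rfl hP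
  -- the weakly closed form
  obtain ⟨-, -, hW1, hW2, hW3⟩ := hWC ι Λ n q c P ⊤ (fun _ _ _ _ => Submodule.mem_top)
    (by
      intro X _ Y _
      rw [hP, hP]
      congr 1
      have h1 : NormedSpace.exp (-X) * NormedSpace.exp X = 1 := by
        let _ : NormedAlgebra ℚ (M n) := NormedAlgebra.restrictScalars ℚ ℂ (M n)
        rw [← NormedSpace.exp_add_of_commute (Commute.neg_left (Commute.refl X))]
        simp
      rw [pow_one, pow_one, ContinuousLinearMap.toLinearMap_smul,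
        ContinuousLinearMap.toLinearMap_smul, map_smul, map_smul]
      congr 1
      have h2 : ((NormedSpace.exp X * Y * NormedSpace.exp (-X) : M n) : E n →ₗ[ℂ] E n) =
          ((NormedSpace.exp X : M n) : E n →ₗ[ℂ] E n) *
            ((Y * NormedSpace.exp (-X) : M n) : E n →ₗ[ℂ] E n) := by
        rw [mul_assoc]; rfl
      rw [h2, LinearMap.trace_mul_comm]
      congr 1
      show ((Y * NormedSpace.exp (-X) * NormedSpace.exp X : M n) : E n →ₗ[ℂ] E n) = _
      rw [mul_assoc, h1, mul_one])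
    K L (fun _ => 0) LinearMap.id 0 (fun _ => Submodule.mem_top) (fun _ => Submodule.mem_top)
    hF.lipK hF.lipL ⟨0, LipschitzWith.const 0⟩ hF.bddK ⟨0, by simp⟩
  set ω : (ι → ℝ) → (Λ.X →L[ℝ] Λ.X) := fun x =>
    PF Λ c P (Fcon K L (fun _ => 0) LinearMap.id 0 x) with hω
  have hev : ∀ x, ω x ∈ Λ.ev := by
    intro x
    have hcomm : ∀ i j : Fin q,
        (Λ.two fun μ ν => c i (Fcon K L (fun _ => 0) LinearMap.id 0 x μ ν)) *
        (Λ.two fun μ ν => c j (Fcon K L (fun _ => 0) LinearMap.id 0 x μ ν)) =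
        (Λ.two fun μ ν => c j (Fcon K L (fun _ => 0) LinearMap.id 0 x μ ν)) *
        (Λ.two fun μ ν => c i (Fcon K L (fun _ => 0) LinearMap.id 0 x μ ν)) := fun i j =>
      (hEVEN ι Λ).2.1 _ ((hEVEN ι Λ).2.2 _) _ ((hEVEN ι Λ).2.2 _)
    obtain ⟨Φ, -, -, h3⟩ := hEV q (Λ.X →L[ℝ] Λ.X) _ hcomm
    have h4 := h3 P
    have h5 : Algebra.adjoin ℝ (Set.range fun a =>
        Λ.two fun μ ν => c a (Fcon K L (fun _ => 0) LinearMap.id 0 x μ ν)) ≤ Λ.ev := by
      rw [Algebra.adjoin_le_iff]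
      rintro _ ⟨a, rfl⟩
      exact (hEVEN ι Λ).2.2 _
    exact h5 h4
  have hpi : ∀ x, ∀ μ : ι, fpi π (x + Pi.single μ 1) = fpi π x := by
    intro x μ
    funext α β
    unfold fpi
    rw [hper x μ, LINE_pd_per (fun y => hper y μ), LINE_pd_per (fun y => hper y μ)]
  have hball : ∀ x : ι → ℝ, (∀ ν, -2 ≤ x ν ∧ x ν ≤ 2) → x ∈ Metric.ball (0 : ι → ℝ) 3 := by
    intro x hx
    rw [mem_ball_zero_iff, pi_norm_lt_iff (by norm_num)]
    intro i
    rw [Real.norm_eq_abs, abs_lt]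
    constructor <;> linarith [(hx i).1, (hx i).2]
  have hglue := hGLUE ι Λ ω hW1 hW2 hev hW3 (by
    intro μ
    have h1 : ∀ᵐ x : ι → ℝ, (x + Pi.single μ 1) ∈ Metric.ball (0 : ι → ℝ) 3 →
        ω (x + Pi.single μ 1) = -(Λ.two (fpi π (x + Pi.single μ 1))) ^ 1 :=
      (measurePreserving_add_right volume (Pi.single μ (1 : ℝ) : ι → ℝ)).quasiMeasurePreserving.ae
        hptw
    filter_upwards [hptw, h1] with x hx1 hx2 hx hxμ
    have a1 : ω x = -(Λ.two (fpi π x)) ^ 1 := hx1 (hball x hx)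
    rw [a1, hx2 (hball _ ?_), hpi]
    intro ν
    by_cases hν : ν = μ
    · subst hν
      simp only [Pi.add_apply, Pi.single_eq_same]
      constructor <;> linarith [(hx ν).1]
    · simp only [Pi.add_apply, Pi.single_eq_of_ne hν, add_zero]
      exact hx ν)
  -- comparison
  have hfrper : ∀ x : ι → ℝ, fpi π (fr x) = fpi π x := by
    intro x
    have hperZ : ∀ (k : ι → ℤ) (y : ι → ℝ), π (y + fun i => (k i : ℝ)) = π y := by
      have h1 : ∀ (s : Finset ι) (k : ι → ℤ) (y : ι → ℝ),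
          π (y + fun i => if i ∈ s then (k i : ℝ) else 0) = π y := by
        intro s k
        induction s using Finset.induction_on with
        | empty => intro y; simp; congr 1; funext i; simp
        | insert a s ha ih =>
          intro y
          have hZ : ∀ (j : ℤ) (z : ι → ℝ), π (z + Pi.single a (j : ℝ)) = π z := by
            intro j
            induction j using Int.induction_on with
            | zero => intro z; simp
            | succ i hi =>
              intro z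
              have : z + Pi.single a (((i : ℤ) + 1 : ℤ) : ℝ) =
                  (z + Pi.single a ((i : ℤ) : ℝ)) + Pi.single a 1 := by
                rw [add_assoc, ← Pi.single_add]; push_cast; rfl
              rw [this, hper, hi]
            | pred i hi =>
              intro z
              have h2 := hi z
              have : z + Pi.single a ((-(i : ℤ) : ℤ) : ℝ) =
                  (z + Pi.single a ((-(i : ℤ) - 1 : ℤ) : ℝ)) + Pi.single a 1 := by
                rw [add_assoc, ← Pi.single_add]; push_cast; ring_nf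
              rw [this, hper] at h2
              exact h2
          have : (y + fun i => if i ∈ insert a s then (k i : ℝ) else 0) =
              (y + fun i => if i ∈ s then (k i : ℝ) else 0) + Pi.single a (k a : ℝ) := by
            funext i
            by_cases hi : i = a
            · subst hi; simp [ha]
            · simp [hi]
          rw [this, hZ, ih]
      intro k y
      have := h1 Finset.univ k y
      simpa using this
    have e : x = fr x + fun i => ((⌊x i⌋ : ℤ) : ℝ) := by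
      funext i
      show x i = Int.fract (x i) + ((⌊x i⌋ : ℤ) : ℝ)
      rw [Int.fract]; ring
    conv_rhs => rw [e]
    funext α β
    unfold fpi
    rw [hperZ (fun i => ⌊x i⌋) (fr x), LINE_pd_per (fun y => hperZ (fun i => ⌊x i⌋) y),
      LINE_pd_per (fun y => hperZ (fun i => ⌊x i⌋) y)]
  have hae : ∀ᵐ x : ι → ℝ, ω (fr x) = -Λ.two (fpi π x) := by
    have h1 := LINE_fr_ae hptw
    filter_upwards [h1] with x hx
    have a1 : ω (fr x) = -(Λ.two (fpi π (fr x))) ^ 1 := hx (CW2_fr_ball x)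
    rw [a1, pow_one, hfrper]
  refine ⟨?_, ?_, ?_, fun x => (hEVEN ι Λ).2.2 _, ?_⟩
  · have hm : ∀ μ ν, Measurable fun x => fpi π x μ ν := fun μ ν => LINE_fpi_meas hlip μ ν
    have h1 : AEStronglyMeasurable
        (fun x => ∑ μ, ∑ ν, fpi π x μ ν • (Λ.e μ * Λ.e ν)) volume := by
      refine Finset.aestronglyMeasurable_fun_sum _ fun μ _ => ?_
      refine Finset.aestronglyMeasurable_fun_sum _ fun ν _ => ?_
      exact (hm μ ν).aestronglyMeasurable.smul_const _
    exact h1.const_smul (1 / 2 : ℝ)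
  · obtain ⟨C, hC⟩ := LINE_fpi_bdd hlip hproj
    refine ⟨‖(1 / 2 : ℝ)‖ * ∑ μ, ∑ ν, C * ‖Λ.e μ * Λ.e ν‖, fun x => ?_⟩
    show ‖(1 / 2 : ℝ) • ∑ μ, ∑ ν, fpi π x μ ν • (Λ.e μ * Λ.e ν)‖ ≤ _
    rw [norm_smul]
    refine mul_le_mul_of_nonneg_left ?_ (norm_nonneg _)
    refine (norm_sum_le _ _).trans (Finset.sum_le_sum fun μ _ => ?_)
    refine (norm_sum_le _ _).trans (Finset.sum_le_sum fun ν _ => ?_)
    rw [norm_smul]
    exact mul_le_mul_of_nonneg_right (hC x μ ν) (norm_nonneg _)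
  · intro x μ
    show Λ.two (fpi π (x + Pi.single μ 1)) = Λ.two (fpi π x)
    rw [hpi]
  · intro g hg hgc
    have h1 := hglue.closed g hg hgc
    have h2 : ∀ μ, ∫ x, pd g x μ • (Λ.e μ * Λ.two (fpi π x)) =
        -∫ x, pd g x μ • (Λ.e μ * ω fun i => Int.fract (x i)) := by
      intro μ
      rw [← integral_neg]
      refine integral_congr_ae ?_
      filter_upwards [hae] with x hx
      have hx' : ω (fun i => Int.fract (x i)) = -Λ.two (fpi π x) := hx
      rw [hx', mul_neg, smul_neg, neg_neg]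
    rw [Finset.sum_congr rfl fun μ _ => h2 μ, Finset.sum_neg_distrib, h1, neg_zero]

end

theorem LINE_int {ι : Type} [Fintype ι] [DecidableEq ι] {f : (ι → ℝ) → ℝ} (hm : Measurable f)
    {C : ℝ} (hC : ∀ x, |f x| ≤ C) : IntegrableOn f (cube ι) := by
  apply Measure.integrableOn_of_bounded (M := C)
  · rw [CW2_cube_vol]; exact ENNReal.one_ne_top
  · exact hm.aestronglyMeasurable
  · exact Filter.Eventually.of_forall fun x => hC x

theorem st_LINE (hEV : ST_EV) (hEVEN : ST_EVEN) (hWC : ST_WC) (hTRP : ST_TRP) (hG1 : ST_GR1)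
    (hG2 : ST_GR2) (hGLUE : ST_GLUE) (hSTRIP : ST_STRIP) (hSHAPE : ST_SHAPE)
    (hLOCAL : ST_LOCAL) : ST_LINE := by
  intro n N0 N hS hU π G hT L K hF Λ
  have hgood := LINE_good hEV hEVEN hWC hTRP hG1 hG2 hGLUE hT.lip hT.proj hT.per hF Λ
  refine ⟨hgood, ?_⟩
  obtain ⟨C, hC⟩ := LINE_fpi_bdd hT.lip hT.proj
  have hint : ∀ μ ν, IntegrableOn (fun x => fpi π x μ ν) (cube (Ix n)) := fun μ ν =>
    LINE_int (LINE_fpi_meas hT.lip μ ν) (fun x => hC x μ ν)
  set φ : Ix n → Ix n → ℝ := fun μ ν => ∫ x in cube (Ix n), fpi π x μ ν with hφ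
  have hmean : ∫ x in cube (Ix n), Λ.two (fpi π x) = Λ.two φ := LINE_two_int Λ hint
  have hanti : ∀ μ ν, φ μ ν = -φ ν μ := by
    intro μ ν
    rw [hφ]
    simp only
    rw [← integral_neg]
    exact integral_congr_ae (Filter.Eventually.of_forall fun x => LINE_fpi_anti π x μ ν)
  have hnone : ∀ ν, φ none ν = 0 ∧ φ ν none = 0 := by
    intro ν
    have h1 : ∀ x, pd π x none = 0 := fun x => LINE_pd_zero fun s => hT.tin x s
    constructor
    · rw [hφ]
      simp only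
      rw [integral_congr_ae (Filter.Eventually.of_forall fun x => (LINE_fpi_zero (h1 x) ν).1)]
      simp
    · rw [hφ]
      simp only
      rw [integral_congr_ae (Filter.Eventually.of_forall fun x => (LINE_fpi_zero (h1 x) ν).2)]
      simp
  have hperm : ∀ (σ : Equiv.Perm (Fin n)) (μ ν : Ix n), φ (sI σ μ) (sI σ ν) = φ μ ν := by
    intro σ μ ν
    rw [hφ]
    simp only
    have h1 : ∀ x, fpi π x (sI σ μ) (sI σ ν) = fpi π (x ∘ sI σ) μ ν := by
      intro x
      unfold fpi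
      rw [hT.sym σ x, LINE_pd_perm (fun y => hT.sym σ y), LINE_pd_perm (fun y => hT.sym σ y)]
    rw [integral_congr_ae (Filter.Eventually.of_forall fun x => h1 x)]
    have e : (MeasurableEquiv.piCongrLeft (fun _ : Ix n => ℝ) (sI σ)⁻¹ :
        (Ix n → ℝ) → (Ix n → ℝ)) = fun x => x ∘ sI σ := by
      funext x i
      have h3 := MeasurableEquiv.piCongrLeft_apply_apply (β := fun _ : Ix n => ℝ)
        (e := (sI σ)⁻¹) (x := x) (i := sI σ i)
      have h4 : (sI σ)⁻¹ (sI σ i) = i := (sI σ).symm_apply_apply i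
      rw [h4] at h3
      exact h3
    have h2 : MeasurePreserving (fun x : Ix n → ℝ => x ∘ sI σ) volume volume := by
      rw [← e]
      exact volume_measurePreserving_piCongrLeft (fun _ : Ix n => ℝ) (sI σ)⁻¹
    have h2' : MeasurableEmbedding (fun x : Ix n → ℝ => x ∘ sI σ) := by
      rw [← e]
      exact (MeasurableEquiv.piCongrLeft (fun _ : Ix n => ℝ) (sI σ)⁻¹).measurableEmbedding
    have h3 : (fun x : Ix n → ℝ => x ∘ sI σ) ⁻¹' cube (Ix n) = cube (Ix n) := by
      ext x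
      constructor
      · intro h i _
        have := h ((sI σ)⁻¹ i) (Set.mem_univ _)
        simpa using this
      · intro h i _
        exact h (sI σ i) (Set.mem_univ _)
    have h4 := h2.setIntegral_preimage_emb h2' (fun x => fpi π x μ ν) (cube (Ix n))
    rw [h3] at h4
    exact h4
  -- shape
  obtain ⟨hs1, -, hs3⟩ := hSHAPE n Λ
  obtain ⟨a, ha⟩ := hs1 1 (Λ.two φ) ((hEVEN (Ix n) Λ).2.2 φ) (LINE_two_c Λ φ none hnone)
    (by
      intro i b
      have h1 := hSTRIP (Ix n) Λ _ hgood (some (i, b)) (some (i, !b)) (by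
        intro h
        have := (Prod.mk.inj (Option.some.inj h)).2
        cases b <;> simp at this)
        (Filter.Eventually.of_forall fun x hx => by
          have h2 : pd π x (some (i, b)) = 0 := LINE_pd_zero fun s => hT.strip x i b s hx
          exact LINE_two_c Λ _ _ fun ν => LINE_fpi_zero h2 ν)
      rw [hmean] at h1
      exact h1)
    (fun σ => LINE_two_U Λ φ (sI σ) fun μ ν => hperm σ μ ν)
    (by
      rw [LINE_two_num]
      norm_num)
  rw [pow_one] at ha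
  rw [hmean, ha]
  show a • Λ.Om = _
  rcases Nat.eq_zero_or_pos n with hn | hn
  · subst hn
    have : Λ.Om = 0 := by
      unfold Ext.Om
      exact Finset.sum_empty
    rw [this, smul_zero, smul_zero]
  · congr 1
    let i : Fin n := ⟨0, hn⟩
    have h1 : φ (some (i, false)) (some (i, true)) = a := hs3 φ a hanti ha i
    rw [← h1]
    exact hLOCAL (Ix n) Λ (fun x => fpi π x) (fun x μ ν => LINE_fpi_anti π x μ ν)
      (fun μ ν => (LINE_fpi_meas hT.lip μ ν).aestronglyMeasurable) ⟨C, hC⟩ hgood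
      (some (i, false)) (some (i, true)) (by
        intro h
        have := (Prod.mk.inj (Option.some.inj h)).2
        simp at this) G hT.Gm hT.Gb (by
        filter_upwards [hT.loc i] with x hx hstrip
        apply hx
        intro j hj b
        apply hstrip
        · intro h
          exact hj (Prod.mk.inj (Option.some.inj h)).1
        · intro h
          exact hj (Prod.mk.inj (Option.some.inj h)).1)

end Pool.Agent.Helper83.CB
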