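import Pool.Agent.Helper80.CB.CW2
import Pool.Agent.Helper27.CB.MEAN

/-!
# Products of good forms are good
-/

open Filter Topology MeasureTheory
open scoped Convolution

namespace Pool.Agent.Helper83.CB

section
variable {ι : Type} [Fintype ι] [DecidableEq ι]

set_option linter.unusedSectionVars false

theorem PROD_int (Λ : Ext ι) {ω : (ι → ℝ) → (Λ.X →L[ℝ] Λ.X)} {u : (ι → ℝ) → ℝ}
    (h1 : AEStronglyMeasurable ω volume) (hb : ∃ C : ℝ, ∀ x, ‖ω x‖ ≤ C) (h2 : Continuous u)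
    (h3 : HasCompactSupport u) : Integrable (fun x => u x • ω x) := by
  obtain ⟨C, hC⟩ := hb
  have h4 : Integrable u := h2.integrable_of_hasCompactSupport h3
  refine (h4.norm.mul_const C).mono' (h2.aestronglyMeasurable.smul h1)
    (Eventually.of_forall fun x => ?_)
  rw [norm_smul]
  exact mul_le_mul_of_nonneg_left (hC x) (norm_nonneg _)

theorem PROD_pd_cont {W : Type*} [NormedAddCommGroup W] [NormedSpace ℝ W] {f : (ι → ℝ) → W}
    (hf : ContDiff ℝ (⊤ : ℕ∞) f) (μ : ι) : Continuous fun x => pd f x μ := by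
  have h1 : Continuous (fderiv ℝ f) := hf.continuous_fderiv (by simp)
  unfold pd
  fun_prop

theorem PROD_pd_supp {W : Type*} [NormedAddCommGroup W] [NormedSpace ℝ W] {f : (ι → ℝ) → W}
    (hf : HasCompactSupport f) (μ : ι) : HasCompactSupport fun x => pd f x μ :=
  (hf.fderiv ℝ).comp_left (g := fun T : (ι → ℝ) →L[ℝ] W => T (Pi.single μ 1)) (by simp)

theorem PROD_vec (Λ : Ext ι) (ω : (ι → ℝ) → (Λ.X →L[ℝ] Λ.X)) (hω : Good Λ ω)
    (Ξ : (ι → ℝ) → (Λ.X →L[ℝ] Λ.X)) (hΞ : ContDiff ℝ (⊤ : ℕ∞) Ξ) (hs : HasCompactSupport Ξ) :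
    ∑ μ, ∫ x, Λ.e μ * ω x * pd Ξ x μ = 0 := by
  set B := Module.finBasis ℝ (Λ.X →L[ℝ] Λ.X) with hB
  set ell : Fin (Module.finrank ℝ (Λ.X →L[ℝ] Λ.X)) → ((Λ.X →L[ℝ] Λ.X) →L[ℝ] ℝ) := fun k =>
    LinearMap.toContinuousLinearMap (B.coord k) with hell
  have hd : Differentiable ℝ Ξ := hΞ.differentiable (by simp)
  have hpd : ∀ k x ν, pd (fun y => ell k (Ξ y)) x ν = ell k (pd Ξ x ν) := by
    intro k x ν
    have h : HasFDerivAt (fun y => ell k (Ξ y)) ((ell k).comp (fderiv ℝ Ξ x)) x :=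
      (ell k).hasFDerivAt.comp x (hd x).hasFDerivAt
    unfold pd
    rw [h.fderiv]
    rfl
  have hk : ∀ k, ∑ ν, ∫ x, ell k (pd Ξ x ν) • (Λ.e ν * ω x) = 0 := by
    intro k
    have h := hω.closed (fun y => ell k (Ξ y)) ((ell k).contDiff.comp hΞ)
      (hs.comp_left (map_zero _))
    simpa only [hpd] using h
  have hmeas : ∀ ν, AEStronglyMeasurable (fun x => Λ.e ν * ω x) volume := fun ν =>
    aestronglyMeasurable_const.mul hω.meas
  have hbdd : ∀ ν, ∃ C : ℝ, ∀ x, ‖Λ.e ν * ω x‖ ≤ C := by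
    intro ν
    obtain ⟨C, hC⟩ := hω.bdd
    exact ⟨‖Λ.e ν‖ * C, fun x => (norm_mul_le _ _).trans
      (mul_le_mul_of_nonneg_left (hC x) (norm_nonneg _))⟩
  have hint : ∀ k ν, Integrable (fun x => ell k (pd Ξ x ν) • (Λ.e ν * ω x)) := by
    intro k ν
    exact PROD_int Λ (hmeas ν) (hbdd ν) ((ell k).continuous.comp (PROD_pd_cont hΞ ν))
      ((PROD_pd_supp hs ν).comp_left (map_zero _))
  have hexp : ∀ ν x, Λ.e ν * ω x * pd Ξ x ν = ∑ k, (ell k (pd Ξ x ν) • (Λ.e ν * ω x)) * B k := by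
    intro ν x
    have h1 : pd Ξ x ν = ∑ k, ell k (pd Ξ x ν) • B k := (B.sum_repr (pd Ξ x ν)).symm
    conv_lhs => rw [h1]
    rw [Finset.mul_sum]
    refine Finset.sum_congr rfl fun k _ => ?_
    rw [mul_smul_comm, smul_mul_assoc]
  have h2 : ∀ ν, ∫ x, Λ.e ν * ω x * pd Ξ x ν =
      ∑ k, (∫ x, ell k (pd Ξ x ν) • (Λ.e ν * ω x)) * B k := by
    intro ν
    simp only [hexp]
    rw [integral_finsetSum _ (fun k _ => (hint k ν).mul_const (B k))]
    exact Finset.sum_congr rfl fun k _ => MEAN_mul_const Λ (hint k ν) (B k)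
  rw [Finset.sum_congr rfl fun ν _ => h2 ν, Finset.sum_comm]
  refine Finset.sum_eq_zero fun k _ => ?_
  rw [← Finset.sum_mul, hk k, zero_mul]

theorem PROD_smooth (hEV : ST_EVEN) (Λ : Ext ι) (ω : (ι → ℝ) → (Λ.X →L[ℝ] Λ.X))
    (hω : Good Λ ω) (ζ : (ι → ℝ) → (Λ.X →L[ℝ] Λ.X)) (hζ : ContDiff ℝ (⊤ : ℕ∞) ζ)
    (hcl : ∀ x, ∑ μ, Λ.e μ * pd ζ x μ = 0) (g : (ι → ℝ) → ℝ) (hg : ContDiff ℝ (⊤ : ℕ∞) g)
    (hs : HasCompactSupport g) : ∑ μ, ∫ x, pd g x μ • (Λ.e μ * (ω x * ζ x)) = 0 := by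
  obtain ⟨he, -, -⟩ := hEV ι Λ
  have hdz : Differentiable ℝ ζ := hζ.differentiable (by simp)
  have hdg : Differentiable ℝ g := hg.differentiable (by simp)
  have hpd : ∀ x μ, pd (fun y => g y • ζ y) x μ = pd g x μ • ζ x + g x • pd ζ x μ := by
    intro x μ
    have h := (hdg x).hasFDerivAt.smul (hdz x).hasFDerivAt
    have e : (fun y => g y • ζ y) = g • ζ := rfl
    unfold pd
    rw [e, h.fderiv]
    simp [add_comm]
  have hv := PROD_vec Λ ω hω (fun y => g y • ζ y) (hg.smul hζ) (hs.smul_right)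
  have hmeas : ∀ ν, AEStronglyMeasurable (fun x => Λ.e ν * ω x) volume := fun ν =>
    aestronglyMeasurable_const.mul hω.meas
  obtain ⟨C, hC⟩ := hω.bdd
  have hbdd : ∀ ν x, ‖Λ.e ν * ω x‖ ≤ ‖Λ.e ν‖ * C := fun ν x => (norm_mul_le _ _).trans
      (mul_le_mul_of_nonneg_left (hC x) (norm_nonneg _))
  have hintF : ∀ ν (F : (ι → ℝ) → (Λ.X →L[ℝ] Λ.X)), Continuous F → HasCompactSupport F →
      Integrable (fun x => Λ.e ν * ω x * F x) := by
    intro ν F hF hFs
    have h4 : Integrable F := hF.integrable_of_hasCompactSupport hFs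
    refine (h4.norm.const_mul (‖Λ.e ν‖ * C)).mono' ((hmeas ν).mul hF.aestronglyMeasurable)
      (Eventually.of_forall fun x => ?_)
    exact (norm_mul_le _ _).trans (mul_le_mul_of_nonneg_right (hbdd ν x) (norm_nonneg _))
  have hi1 : ∀ ν, Integrable (fun x => Λ.e ν * ω x * (pd g x ν • ζ x)) := fun ν =>
    hintF ν _ ((PROD_pd_cont hg ν).smul hζ.continuous) (PROD_pd_supp hs ν).smul_right
  have hi2 : ∀ ν, Integrable (fun x => Λ.e ν * ω x * (g x • pd ζ x ν)) := fun ν =>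
    hintF ν _ (hg.continuous.smul (PROD_pd_cont hζ ν)) hs.smul_right
  have h1 : ∀ μ, ∫ x, Λ.e μ * ω x * pd (fun y => g y • ζ y) x μ =
      (∫ x, pd g x μ • (Λ.e μ * (ω x * ζ x))) + ∫ x, Λ.e μ * ω x * (g x • pd ζ x μ) := by
    intro μ
    rw [← integral_add]
    · refine integral_congr_ae (Eventually.of_forall fun x => ?_)
      simp only [hpd, mul_add, mul_smul_comm, mul_assoc]
    · refine (hi1 μ).congr (Eventually.of_forall fun x => ?_)
      simp only [mul_smul_comm, mul_assoc]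
    · exact hi2 μ
  have h2 : ∑ μ, ∫ x, Λ.e μ * ω x * (g x • pd ζ x μ) = 0 := by
    rw [← integral_finsetSum _ fun μ _ => hi2 μ]
    have : ∀ x, ∑ μ, Λ.e μ * ω x * (g x • pd ζ x μ) = 0 := by
      intro x
      have h3 : ∀ μ, Λ.e μ * ω x * (g x • pd ζ x μ) = g x • (ω x * (Λ.e μ * pd ζ x μ)) := by
        intro μ
        rw [mul_smul_comm, ← he _ (hω.ev x) μ, mul_assoc]
      rw [Finset.sum_congr rfl fun μ _ => h3 μ, ← Finset.smul_sum, ← Finset.mul_sum, hcl x,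
        mul_zero, smul_zero]
    simp only [this, integral_zero]
  rw [Finset.sum_congr rfl fun μ _ => h1 μ, Finset.sum_add_distrib, h2, add_zero] at hv
  exact hv

end

theorem st_PROD (hEV : ST_EVEN) : ST_PROD := by
  intro ι _ _ Λ ω η hω hη
  have hloc := MEAN_loc Λ η hη
  obtain ⟨C, hC⟩ := hη.bdd
  obtain ⟨D, hD⟩ := hω.bdd
  have hD0 : 0 ≤ D := (norm_nonneg _).trans (hD 0)
  refine ⟨hω.meas.mul hη.meas, ⟨D * C, fun x => (norm_mul_le _ _).trans
    (mul_le_mul (hD x) (hC x) (norm_nonneg _) hD0)⟩, fun x μ => ?_, fun x =>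
    Subalgebra.mul_mem _ (hω.ev x) (hη.ev x), ?_⟩
  · show ω (x + Pi.single μ 1) * η (x + Pi.single μ 1) = ω x * η x
    rw [hω.per, hη.per]
  intro g hg hs
  set φ : ℕ → ContDiffBump (0 : ι → ℝ) := fun n =>
    ⟨1 / ((n : ℝ) + 1), 2 / ((n : ℝ) + 1), by positivity, by
      have h : (0 : ℝ) < (n : ℝ) + 1 := by positivity
      rw [div_lt_div_iff_of_pos_right h]; norm_num⟩ with hφ
  set ζ : ℕ → (ι → ℝ) → (Λ.X →L[ℝ] Λ.X) := fun n =>
    (φ n).normed volume ⋆[ContinuousLinearMap.lsmul ℝ ℝ, volume] η with hζ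
  have hz := fun n => MEAN_moll Λ η hη ((φ n).normed volume) (φ n).contDiff_normed
    (φ n).hasCompactSupport_normed
  have hae : ∀ᵐ x, Tendsto (fun n => ζ n x) atTop (𝓝 (η x)) := by
    refine ContDiffBump.ae_convolution_tendsto_right_of_locallyIntegrable (K := 2) ?_ ?_ hloc
    · have h : Tendsto (fun n : ℕ => 2 * (1 / ((n : ℝ) + 1))) atTop (𝓝 (2 * 0)) :=
        tendsto_one_div_add_atTop_nhds_zero_nat.const_mul 2
      rw [mul_zero] at h
      refine h.congr (fun n => ?_)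
      simp only [hφ]
      ring
    · refine Eventually.of_forall fun n => ?_
      simp only [hφ]
      apply le_of_eq
      ring
  have hcont : ∀ n, Continuous (ζ n) := fun n => (hz n).1.continuous
  have h0 : ∀ n, ∑ μ, ∫ x, pd g x μ • (Λ.e μ * (ω x * ζ n x)) = 0 := fun n =>
    PROD_smooth hEV Λ ω hω (ζ n) (hz n).1 (hz n).2.2 g hg hs
  have hlim : ∀ μ, Tendsto (fun n => ∫ x, pd g x μ • (Λ.e μ * (ω x * ζ n x))) atTop
      (𝓝 (∫ x, pd g x μ • (Λ.e μ * (ω x * η x)))) := by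
    intro μ
    refine tendsto_integral_of_dominated_convergence
      (fun x => ‖pd g x μ‖ * (‖Λ.e μ‖ * (D * C))) (fun n => ?_) ?_ (fun n => ?_) ?_
    · exact (PROD_pd_cont hg μ).aestronglyMeasurable.smul
        (aestronglyMeasurable_const.mul (hω.meas.mul (hcont n).aestronglyMeasurable))
    · exact (((PROD_pd_cont hg μ).integrable_of_hasCompactSupport
        (PROD_pd_supp hs μ)).norm).mul_const _
    · refine Eventually.of_forall fun x => ?_
      rw [norm_smul]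
      refine mul_le_mul_of_nonneg_left ?_ (norm_nonneg _)
      refine (norm_mul_le _ _).trans (mul_le_mul_of_nonneg_left ?_ (norm_nonneg _))
      exact (norm_mul_le _ _).trans (mul_le_mul (hD x) (MEAN_bound Λ η C hC (φ n) x)
        (norm_nonneg _) hD0)
    · filter_upwards [hae] with x hx
      exact ((hx.const_mul (ω x)).const_mul (Λ.e μ)).const_smul _
  have h1 := tendsto_finsetSum Finset.univ fun μ _ => hlim μ
  simp only [h0] at h1
  exact (tendsto_nhds_unique h1 tendsto_const_nhds)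

end Pool.Agent.Helper83.CB
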