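import Pool.Agent.Helper80.CB.Defs

/-!
# Complex Banach conjecture, algebra half: exact statements of the modules
-/

namespace Pool.Agent.Helper80.CB

open Matrix MvPolynomial

/-! ## Lie part -/

/-- A_EXPS. The Lie algebra of a closed group of unitary matrices exponentiates onto a compact
connected group. -/
def ST_EXPS : Prop :=
  ∀ (n : ℕ) (G : Set (Mat n)) (h : Submodule ℝ (Mat n)), (1 : Mat n) ∈ G →
    (∀ g ∈ G, ∀ g' ∈ G, g * g' ∈ G) → (∀ g ∈ G, gᴴ ∈ G) → (∀ g ∈ G, gᴴ * g = 1) → IsClosed G →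
    (∀ X : Mat n, X ∈ h ↔ Xᴴ = X ∧ ∀ t : ℝ, NormedSpace.exp (((t : ℂ) * Complex.I) • X) ∈ G) →
    (∀ ε : ℝ, 0 < ε → ∃ δ : ℝ, 0 < δ ∧ ∀ g ∈ G, (∀ i j, ‖(g - 1) i j‖ < δ) →
      ∃ X ∈ h, (∀ i j, ‖X i j‖ < ε) ∧ NormedSpace.exp (Complex.I • X) = g) →
    ∃ D : Cpt n, D.h = h ∧ D.S = {g | ∃ X ∈ h, NormedSpace.exp (Complex.I • X) = g}

/-- A_CONJ. -/
def ST_CONJ : Prop :=
  ∀ (n : ℕ) (D : Cpt n), ∀ X ∈ D.h, ∀ Y ∈ D.h,
    ∃ g ∈ D.S, (g * X * gᴴ) * Y = Y * (g * X * gᴴ)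

/-- A_CENT. -/
def ST_CENT : Prop :=
  ∀ (n : ℕ) (D : Cpt n) (T : Set (Mat n)), ∃ D' : Cpt n,
    (∀ g, g ∈ D'.S ↔ g ∈ D.S ∧ ∀ x ∈ T, g * x = x * g) ∧
    (∀ X, X ∈ D'.h ↔ X ∈ D.h ∧ ∀ x ∈ T, X * x = x * X)

/-- A_AVOID. -/
def ST_AVOID : Prop :=
  ∀ (T : Type) [AddCommGroup T] [Module ℝ T] (m : ℕ) (l : Fin m → T →ₗ[ℝ] ℝ),
    (∀ i, l i ≠ 0) → ∃ y : T, ∀ i, l i y ≠ 0

/-- A_TOR. Existence of a diagonal maximal torus after a unitary change of coordinates. -/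
def ST_TOR : Prop :=
  ∀ (n : ℕ) (D : Cpt n), ∃ (u : Mat n) (D' : Cpt n) (t : Submodule ℝ (Mat n)),
    uᴴ * u = 1 ∧ (∀ g, g ∈ D'.S ↔ uᴴ * g * u ∈ D.S) ∧ (∀ X, X ∈ D'.h ↔ uᴴ * X * u ∈ D.h) ∧
    Torus D' t

/-- A_GEN. Generic elements of the torus. -/
def ST_GEN : Prop :=
  ∀ (n : ℕ) (D : Cpt n) (t : Submodule ℝ (Mat n)), Torus D t →
    ∃ y : t, (∀ i j, wt t i y = wt t j y → wt t i = wt t j) ∧
      (∀ X ∈ D.h, X * (y : Mat n) = (y : Mat n) * X → X ∈ t)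

/-- A_REG. Every element is conjugate into the torus. -/
def ST_REG : Prop :=
  ∀ (n : ℕ) (D : Cpt n) (t : Submodule ℝ (Mat n)), Torus D t →
    ∀ X ∈ D.h, ∃ g ∈ D.S, g * X * gᴴ ∈ t

/-- A_FUS. Two elements of the torus conjugate under the group are conjugate under the
normaliser of the torus. -/
def ST_FUS : Prop :=
  ∀ (n : ℕ) (D : Cpt n) (t : Submodule ℝ (Mat n)), Torus D t →
    ∀ x ∈ t, ∀ g ∈ D.S, g * x * gᴴ ∈ t →
      ∃ m ∈ D.S, (∀ z ∈ t, m * z * mᴴ ∈ t) ∧ m * x * mᴴ = g * x * gᴴ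

/-- A_WMK. -/
def ST_WMK : Prop :=
  ∀ (n : ℕ) (D : Cpt n) (t : Submodule ℝ (Mat n)), Torus D t →
    ∀ g ∈ D.S, (∀ z ∈ t, g * z * gᴴ ∈ t) →
      ∃ w ∈ weyl D t, ∀ x : t, g * (x : Mat n) * gᴴ = (w x : Mat n)

/-- A_WPERM. Elements of the Weyl group permute the weights. -/
def ST_WPERM : Prop :=
  ∀ (n : ℕ) (D : Cpt n) (t : Submodule ℝ (Mat n)), Torus D t →
    ∀ w ∈ weyl D t, ∃ σ : Equiv.Perm (Fin n), ∀ (i : Fin n) (x : t),
      wt t i (w x) = wt t (σ i) x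

/-- A_WFIN. -/
def ST_WFIN : Prop :=
  ∀ (n : ℕ) (D : Cpt n) (t : Submodule ℝ (Mat n)), Torus D t → Finite (weyl D t)

/-- A_PROJ. A nonzero entry of an element of `h` between different weights gives a root
vector. -/
def ST_PROJ : Prop :=
  ∀ (n : ℕ) (D : Cpt n) (t : Submodule ℝ (Mat n)), Torus D t →
    ∀ X ∈ D.h, ∀ p q : Fin n, X p q ≠ 0 → wt t p ≠ wt t q →
      ∃ E : Mat n, RootVec D t E (wt t p - wt t q)

/-- A_RREF. Every root vector gives a reflection in the Weyl group. -/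
def ST_RREF : Prop :=
  ∀ (n : ℕ) (D : Cpt n) (t : Submodule ℝ (Mat n)), Torus D t →
    ∀ E α, RootVec D t E α → ∃ s ∈ weyl D t, ∃ v : t, RootRefl D t E α v s

/-- A_CHAMB. -/
def ST_CHAMB : Prop :=
  ∀ (n : ℕ) (D : Cpt n) (t : Submodule ℝ (Mat n)), Torus D t →
    ∀ w ∈ weyl D t, ∃ v ∈ Subgroup.closure (reflSet D t), ∃ y : t,
      ∀ E α, RootVec D t E α → 0 < α (v (w y)) * α y

/-- A_FIX. An element of the Weyl group preserving a chamber is trivial (`Conn` is essential). -/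
def ST_FIX : Prop :=
  ∀ (n : ℕ) (D : Cpt n) (t : Submodule ℝ (Mat n)), Conn D → Torus D t →
    ∀ w ∈ weyl D t, ∀ y : t, (∀ E α, RootVec D t E α → 0 < α (w y) * α y) → w = 1

/-- A_WREF. The Weyl group is generated by reflections. -/
def ST_WREF : Prop :=
  ∀ (n : ℕ) (D : Cpt n) (t : Submodule ℝ (Mat n)), Conn D → Torus D t →
    weyl D t = Subgroup.closure (reflSet D t)

/-! ## Invariant polynomials on `h` and restriction to the torus -/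

/-- A_SEP. Invariant polynomials separate orbits. -/
def ST_SEP : Prop :=
  ∀ (n q : ℕ) (D : Cpt n) (b : Module.Basis (Fin q) ℝ D.h) (X Y : D.h),
    (∀ g ∈ D.S, g * (X : Mat n) * gᴴ ≠ (Y : Mat n)) →
      ∃ P : MvPolynomial (Fin q) ℝ, InvP D b P ∧ val b X P ≠ val b Y P

/-- A_CHP. The coefficients of the characteristic polynomial are invariant polynomials. -/
def ST_CHP : Prop :=
  ∀ (n q : ℕ) (D : Cpt n) (b : Module.Basis (Fin q) ℝ D.h) (j : ℕ),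
    ∃ P : MvPolynomial (Fin q) ℝ, InvP D b P ∧
      ∀ X : D.h, (X : Mat n).charpoly.coeff j = ((val b X P : ℝ) : ℂ)

/-- A_TRP. The power traces are homogeneous invariant polynomials. -/
def ST_TRP : Prop :=
  ∀ (n q : ℕ) (D : Cpt n) (b : Module.Basis (Fin q) ℝ D.h) (j : ℕ),
    ∃ P : MvPolynomial (Fin q) ℝ, P.IsHomogeneous j ∧ InvP D b P ∧
      ∀ X : D.h, Matrix.trace ((X : Mat n) ^ j) = ((val b X P : ℝ) : ℂ)

/-- A_GAL. Galois descent (pure commutative algebra). -/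
def ST_GAL : Prop :=
  ∀ (R S : Type) [CommRing R] [IsDomain R] [CommRing S] [IsDomain S] [CharZero S] [Algebra R S],
    Function.Injective (algebraMap R S) →
    ∀ (n : ℕ) (l : Fin n → S) (f : Polynomial R),
      f.map (algebraMap R S) = ∏ i, (Polynomial.X - Polynomial.C (l i)) →
      Algebra.adjoin R (Set.range l) = ⊤ →
      ∀ p : S, (∀ σ : S →ₐ[R] S, σ p = p) →
        ∃ a b : R, b ≠ 0 ∧ algebraMap R S b * p = algebraMap R S a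

/-- A_LIFT. Integrality lift (pure commutative algebra). -/
def ST_LIFT : Prop :=
  ∀ (U S : Type) [CommRing U] [IsDomain U] [IsIntegrallyClosed U] [CommRing S] [IsDomain S]
    (R : Subring U) (res : U →+* S), (∀ x ∈ R, res x = 0 → x = 0) →
    ∀ a ∈ R, ∀ b ∈ R, b ≠ 0 → ∀ p : S,
      (∃ f : Polynomial U, f.Monic ∧ (∀ i, f.coeff i ∈ R) ∧ (f.map res).eval p = 0) →
      res b * p = res a → ∃ F : U, b * F = a

/-- A_LINEND. A ring endomorphism of the polynomial ring mapping a spanning set of linear forms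
into linear forms is a linear substitution. -/
def ST_LINEND : Prop :=
  ∀ (r n : ℕ) (T : Type) [AddCommGroup T] [Module ℝ T] (c : Module.Basis (Fin r) ℝ T)
    (l : Fin n → T →ₗ[ℝ] ℝ), (∀ x, (∀ i, l i x = 0) → x = 0) →
    ∀ σ : MvPolynomial (Fin r) ℝ →ₐ[ℝ] MvPolynomial (Fin r) ℝ,
      (∀ i, ∃ j, σ (linP c (l i)) = linP c (l j)) →
      ∃ g : T →ₗ[ℝ] T, ∀ p x, val c x (σ p) = val c (g x) p

/-- A_COVER. -/
def ST_COVER : Prop :=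
  ∀ (T : Type) [AddCommGroup T] [Module ℝ T] [Module.Finite ℝ T] (W : Subgroup (T ≃ₗ[ℝ] T)),
    Finite W → ∀ g : T →ₗ[ℝ] T, (∀ x, ∃ w ∈ W, g x = w x) → ∃ w ∈ W, ∀ x, g x = w x

/-- A_REST. Chevalley restriction theorem (surjectivity). -/
def ST_REST : Prop :=
  ∀ (n q r : ℕ) (D : Cpt n) (t : Submodule ℝ (Mat n)) (ht : Torus D t)
    (b : Module.Basis (Fin q) ℝ D.h) (c : Module.Basis (Fin r) ℝ t)
    (p : MvPolynomial (Fin r) ℝ), WInv c (weyl D t) p →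
      ∃ P : MvPolynomial (Fin q) ℝ, InvP D b P ∧
        ∀ x : t, val b (⟨x, ht.le x.2⟩ : D.h) P = val c x p

/-! ## Finite reflection groups -/

/-- A_REYN. The Reynolds operator of a finite linear group. -/
def ST_REYN : Prop :=
  ∀ (r : ℕ) (T : Type) [AddCommGroup T] [Module ℝ T] (c : Module.Basis (Fin r) ℝ T)
    (W : Subgroup (T ≃ₗ[ℝ] T)), Finite W →
    ∃ ρ : MvPolynomial (Fin r) ℝ →ₗ[ℝ] MvPolynomial (Fin r) ℝ,
      (∀ P, WInv c W (ρ P)) ∧ (∀ P, WInv c W P → ρ P = P) ∧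
      (∀ P Q, WInv c W P → ρ (P * Q) = P * ρ Q) ∧
      (∀ P d, P.IsHomogeneous d → (ρ P).IsHomogeneous d) ∧
      (∀ I : Ideal (MvPolynomial (Fin r) ℝ), ∀ P,
        (∀ w ∈ W, ∃ Q, (∀ x, val c x Q = val c (w x) P) ∧ Q - P ∈ I) → ρ P - P ∈ I)

/-- A_CSTL. The key lemma of Chevalley's theorem. -/
def ST_CSTL : Prop :=
  ∀ (r : ℕ) (T : Type) [AddCommGroup T] [Module ℝ T] (c : Module.Basis (Fin r) ℝ T)
    (W : Subgroup (T ≃ₗ[ℝ] T)), Finite W → W = Subgroup.closure {s | s ∈ W ∧ IsRefl s} →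
    ∀ (m : ℕ) (J : Fin (m + 1) → MvPolynomial (Fin r) ℝ), (∀ i, WInv c W (J i)) →
      (¬ ∃ a : Fin m → MvPolynomial (Fin r) ℝ, (∀ i, WInv c W (a i)) ∧
        J 0 = ∑ i, a i * J i.succ) →
      ∀ (d : ℕ) (P : Fin (m + 1) → MvPolynomial (Fin r) ℝ), (P 0).IsHomogeneous d →
        ∑ i, P i * J i = 0 → P 0 ∈ hilbIdeal c W

/-- A_CSTF. A finite minimal system of homogeneous invariant generators of the Hilbert ideal. -/
def ST_CSTF : Prop :=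
  ∀ (r : ℕ) (T : Type) [AddCommGroup T] [Module ℝ T] (c : Module.Basis (Fin r) ℝ T)
    (W : Subgroup (T ≃ₗ[ℝ] T)),
    ∃ (m : ℕ) (f : Fin m → MvPolynomial (Fin r) ℝ) (d : Fin m → ℕ),
      (∀ i, (f i).IsHomogeneous (d i)) ∧ (∀ i, 0 < d i) ∧ (∀ i, WInv c W (f i)) ∧
      hilbIdeal c W = Ideal.span (Set.range f) ∧
      (∀ i, f i ∉ Ideal.span (f '' {j | j ≠ i}))

/-- A_CSTG. Generators of the Hilbert ideal generate the algebra of invariants. -/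
def ST_CSTG : Prop :=
  ∀ (r : ℕ) (T : Type) [AddCommGroup T] [Module ℝ T] (c : Module.Basis (Fin r) ℝ T)
    (W : Subgroup (T ≃ₗ[ℝ] T)), Finite W →
    ∀ (m : ℕ) (f : Fin m → MvPolynomial (Fin r) ℝ) (d : Fin m → ℕ),
      (∀ i, (f i).IsHomogeneous (d i)) → (∀ i, 0 < d i) → (∀ i, WInv c W (f i)) →
      hilbIdeal c W = Ideal.span (Set.range f) →
      ∀ P, WInv c W P → P ∈ Algebra.adjoin ℝ (Set.range f)

/-- A_CSTI. Algebraic independence. -/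
def ST_CSTI : Prop :=
  ∀ (r : ℕ) (T : Type) [AddCommGroup T] [Module ℝ T] (c : Module.Basis (Fin r) ℝ T)
    (W : Subgroup (T ≃ₗ[ℝ] T)), Finite W → W = Subgroup.closure {s | s ∈ W ∧ IsRefl s} →
    ∀ (m : ℕ) (f : Fin m → MvPolynomial (Fin r) ℝ) (d : Fin m → ℕ),
      (∀ i, (f i).IsHomogeneous (d i)) → (∀ i, 0 < d i) → (∀ i, WInv c W (f i)) →
      hilbIdeal c W = Ideal.span (Set.range f) →
      (∀ i, f i ∉ Ideal.span (f '' {j | j ≠ i})) → AlgebraicIndependent ℝ f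

/-- A_CST. Chevalley's theorem. -/
def ST_CST : Prop :=
  ∀ (r : ℕ) (T : Type) [AddCommGroup T] [Module ℝ T] (c : Module.Basis (Fin r) ℝ T)
    (W : Subgroup (T ≃ₗ[ℝ] T)), Finite W → W = Subgroup.closure {s | s ∈ W ∧ IsRefl s} →
    ∃ (m : ℕ) (f : Fin m → MvPolynomial (Fin r) ℝ) (d : Fin m → ℕ),
      (∀ i, (f i).IsHomogeneous (d i)) ∧ (∀ i, 0 < d i) ∧ (∀ i, WInv c W (f i)) ∧
      AlgebraicIndependent ℝ f ∧ ∀ P, WInv c W P → P ∈ Algebra.adjoin ℝ (Set.range f)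

/-- A_TAU. A truncated homomorphism on a polynomial algebra of invariants is evaluation at a
complex point with real invariants. -/
def ST_TAU : Prop :=
  ∀ (r : ℕ) (T : Type) [AddCommGroup T] [Module ℝ T] (c : Module.Basis (Fin r) ℝ T)
    (W : Subgroup (T ≃ₗ[ℝ] T)), Finite W →
    ∀ (m : ℕ) (f : Fin m → MvPolynomial (Fin r) ℝ) (d : Fin m → ℕ),
      (∀ i, (f i).IsHomogeneous (d i)) → (∀ i, 0 < d i) → (∀ i, WInv c W (f i)) →
      AlgebraicIndependent ℝ f → (∀ P, WInv c W P → P ∈ Algebra.adjoin ℝ (Set.range f)) →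
    ∀ (N : ℕ) (ψ : MvPolynomial (Fin r) ℝ → ℝ), ψ 1 = 1 →
      (∀ P Q d e, P.IsHomogeneous d → Q.IsHomogeneous e → WInv c W P → WInv c W Q →
        d + e ≤ N → ψ (P * Q) = ψ P * ψ Q) →
      (∀ P Q d, P.IsHomogeneous d → Q.IsHomogeneous d → WInv c W P → WInv c W Q → d ≤ N →
        ψ (P + Q) = ψ P + ψ Q) →
      (∀ (a : ℝ) P d, P.IsHomogeneous d → WInv c W P → d ≤ N → ψ (a • P) = a * ψ P) →
    ∃ τ : Fin r → ℂ,
      (∀ P k, P.IsHomogeneous k → k ≤ N → WInv c W P → aeval τ P = ((ψ P : ℝ) : ℂ)) ∧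
      (∀ P, WInv c W P → ∃ a : ℝ, aeval τ P = (a : ℂ))

/-- A_ORB. A complex point with real invariants is conjugate to its complex conjugate. -/
def ST_ORB : Prop :=
  ∀ (r : ℕ) (T : Type) [AddCommGroup T] [Module ℝ T] (c : Module.Basis (Fin r) ℝ T)
    (W : Subgroup (T ≃ₗ[ℝ] T)), Finite W → ∀ τ : Fin r → ℂ,
      (∀ P, WInv c W P → ∃ a : ℝ, aeval τ P = (a : ℂ)) →
      ∃ w ∈ W, ∀ l : T →ₗ[ℝ] ℝ,
        (starRingEnd ℂ) (lval c τ l) = lval c τ (l ∘ₗ (w : T →ₗ[ℝ] T))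

/-! ## Parity and the rank one root vector -/

/-- A_NEWT. -/
def ST_NEWT : Prop :=
  ∀ n : ℕ, n % 4 = 3 → ∀ δ : Fin n → ℂ, (∀ j : ℕ, 1 ≤ j → j ≤ n → ∑ i, δ i ^ j = -1) →
    Function.Injective δ ∧ (∀ i, ‖δ i‖ = 1) ∧
      ∃ π : Equiv.Perm (Fin n), (∀ i, (starRingEnd ℂ) (δ i) = δ (π i)) ∧
        Equiv.Perm.sign π = -1

/-- A_ODD. Some root reflection acts as an odd permutation of the weights. -/
def ST_ODD : Prop :=
  ∀ (n r : ℕ) (D : Cpt n) (t : Submodule ℝ (Mat n)), Torus D t →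
    weyl D t = Subgroup.closure (reflSet D t) →
    ∀ (c : Module.Basis (Fin r) ℝ t) (τ : Fin r → ℂ),
      Function.Injective (fun i => lval c τ (wt t i)) →
      ∀ w ∈ weyl D t,
        (∀ l : t →ₗ[ℝ] ℝ, (starRingEnd ℂ) (lval c τ l) = lval c τ (l ∘ₗ (w : t →ₗ[ℝ] t))) →
      ∀ π : Equiv.Perm (Fin n),
        (∀ i, (starRingEnd ℂ) (lval c τ (wt t i)) = lval c τ (wt t (π i))) →
        Equiv.Perm.sign π = -1 →
      ∃ (E : Mat n) (α : t →ₗ[ℝ] ℝ) (v : t) (s : t ≃ₗ[ℝ] t) (σ : Equiv.Perm (Fin n)),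
        RootRefl D t E α v s ∧ (∀ (i : Fin n) (x : t), wt t i (s x) = wt t (σ i) x) ∧
        Equiv.Perm.sign σ = -1

/-- A_ONE. An odd root reflection has a root vector with one single nonzero entry. -/
def ST_ONE : Prop :=
  ∀ (n r : ℕ) (D : Cpt n) (t : Submodule ℝ (Mat n)), Torus D t →
    ∀ (c : Module.Basis (Fin r) ℝ t) (τ : Fin r → ℂ),
      Function.Injective (fun i => lval c τ (wt t i)) → (∀ i, ‖lval c τ (wt t i)‖ = 1) →
      ∀ (E : Mat n) (α : t →ₗ[ℝ] ℝ) (v : t) (s : t ≃ₗ[ℝ] t) (σ : Equiv.Perm (Fin n)),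
        RootRefl D t E α v s → (∀ (i : Fin n) (x : t), wt t i (s x) = wt t (σ i) x) →
        Equiv.Perm.sign σ = -1 →
        ∃ (i j : Fin n) (a : ℂ), i ≠ j ∧ a ≠ 0 ∧ E = a • Matrix.single i j 1

/-- A_SU2. -/
def ST_SU2 : Prop :=
  ∀ (n : ℕ) (D : Cpt n) (i j : Fin n) (a : ℂ), i ≠ j → a ≠ 0 →
    (∃ A ∈ D.h, ∃ B ∈ D.h, a • Matrix.single i j (1 : ℂ) = A + Complex.I • B) →
    ∀ x x' : Fin n → ℂ, (∀ k, k ≠ i → k ≠ j → x k = 0 ∧ x' k = 0) →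
      ‖x i‖ ^ 2 + ‖x j‖ ^ 2 = ‖x' i‖ ^ 2 + ‖x' j‖ ^ 2 →
      ∃ g ∈ D.S, g *ᵥ x = x' ∧ ∀ y : Fin n → ℂ, y i = 0 → y j = 0 → g *ᵥ y = y

/-- A_TRANS. Transport under a unitary change of coordinates. -/
def ST_TRANS : Prop :=
  ∀ (n : ℕ) (D D' : Cpt n) (u : Mat n), uᴴ * u = 1 → (∀ g, g ∈ D'.S ↔ uᴴ * g * u ∈ D.S) →
    (∀ X, X ∈ D'.h ↔ uᴴ * X * u ∈ D.h) →
    (Conn D → Conn D') ∧
    ∀ (q : ℕ) (b : Module.Basis (Fin q) ℝ D.h) (φ : MvPolynomial (Fin q) ℝ →ₗ[ℝ] ℝ),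
      TruncHom D b φ → ∃ b' : Module.Basis (Fin q) ℝ D'.h, TruncHom D' b' φ

/-- The algebra half: a connected compact group with a truncated homomorphism contains an
`SU(2)` acting on a plane and trivially on its orthogonal complement, if `n = 3 mod 4`. -/
def ST_ALG : Prop :=
  ∀ n : ℕ, n % 4 = 3 → ∀ D : Cpt n, Conn D → ∀ (q : ℕ) (b : Module.Basis (Fin q) ℝ D.h)
    (φ : MvPolynomial (Fin q) ℝ →ₗ[ℝ] ℝ), TruncHom D b φ →
    ∃ u v : Fin n → ℂ, star u ⬝ᵥ u = 1 ∧ star v ⬝ᵥ v = 1 ∧ star u ⬝ᵥ v = 0 ∧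
      ∀ a b a' b' : ℂ, ‖a‖ ^ 2 + ‖b‖ ^ 2 = ‖a'‖ ^ 2 + ‖b'‖ ^ 2 →
        ∃ g ∈ D.S, g *ᵥ (a • u + b • v) = a' • u + b' • v ∧
          ∀ y : Fin n → ℂ, star u ⬝ᵥ y = 0 → star v ⬝ᵥ y = 0 → g *ᵥ y = y

end Pool.Agent.Helper80.CB
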