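import Pool.Agent.Helper83.CB.Defs4

/-!
# UNI
-/

open Filter Topology MeasureTheory

namespace Pool.Agent.Helper83.CB

theorem UNI_finrank {m : ℕ} (f : E (m + 1) →L[ℂ] ℂ) (hf : f ≠ 0) :
    Module.finrank ℂ (kr f) = m := by
  have h1 := LinearMap.finrank_range_add_finrank_ker f.toLinearMap
  have h2 : LinearMap.range f.toLinearMap = ⊤ := by
    apply LinearMap.range_eq_top.mpr
    apply LinearMap.surjective
    intro h
    apply hf
    ext x
    exact congrArg (fun g : E (m + 1) →ₗ[ℂ] ℂ => g x) h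
  rw [h2, finrank_top, Module.finrank_self, finrank_euclideanSpace_fin] at h1
  show Module.finrank ℂ (LinearMap.ker f.toLinearMap) = m
  omega

theorem st_UNI (hINV : ST_INV) : ST_UNI := by
  intro n N hN hiso
  -- a nonzero functional
  let f0 : E (n + 1) →L[ℂ] ℂ := EuclideanSpace.proj (0 : Fin (n + 1))
  have hf0 : f0 ≠ 0 := by
    intro h
    have h1 := congrArg (fun g : E (n + 1) →L[ℂ] ℂ => g (EuclideanSpace.single 0 1)) h
    simp [f0] at h1
  have hfin := UNI_finrank f0 hf0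
  let N' : kr f0 → ℝ := fun x => N (x : E (n + 1))
  have hN' : IsNorm N' :=
    { pos := fun x hx => hN.pos _ fun h => hx (Subtype.ext h)
      smul := fun c x => hN.smul c _
      add := fun x y => hN.add _ _ }
  have hT : ∃ T : kr f0 ≃ₗ[ℂ] E n, ∀ g : kr f0 →ₗ[ℂ] kr f0, (∀ x, N' (g x) = N' x) →
      ∀ x, ‖T (g x)‖ = ‖T x‖ := by
    have h := hINV (kr f0) N' hN'
    rw [hfin] at h
    exact h
  obtain ⟨T, hT⟩ := hT
  refine ⟨fun z => N' (T.symm z), ⟨⟨?_, ?_, ?_⟩, hN, ?_⟩, ?_⟩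
  · intro x hx
    exact hN'.pos _ fun h => hx (by simpa using congrArg T h)
  · intro c x
    show N' (T.symm (c • x)) = _
    rw [map_smul, hN'.smul]
  · intro x y
    show N' (T.symm (x + y)) ≤ _
    rw [map_add]
    exact hN'.add _ _
  · intro f hf
    obtain ⟨S, hS⟩ := hiso f0 f hf0 hf
    let L : E n →ₗ[ℂ] E (n + 1) :=
      (kr f).subtype ∘ₗ (S : kr f0 →ₗ[ℂ] kr f) ∘ₗ (T.symm : E n →ₗ[ℂ] kr f0)
    refine ⟨LinearMap.toContinuousLinearMap L, ?_, ?_⟩
    · intro z
      show N ((S (T.symm z) : kr f) : E (n + 1)) = N ((T.symm z : kr f0) : E (n + 1))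
      exact hS _
    · show LinearMap.range L = kr f
      ext y
      constructor
      · rintro ⟨z, rfl⟩
        exact (S (T.symm z)).2
      · intro hy
        refine ⟨T (S.symm ⟨y, hy⟩), ?_⟩
        show ((S (T.symm (T (S.symm ⟨y, hy⟩))) : kr f) : E (n + 1)) = y
        rw [LinearEquiv.symm_apply_apply, LinearEquiv.apply_symm_apply]
  · intro g hg z
    have h1 := hT ((T.symm : E n →ₗ[ℂ] kr f0) ∘ₗ g.toLinearMap ∘ₗ (T : kr f0 →ₗ[ℂ] E n))
      (by
        intro x
        have := hg (T x)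
        simpa using this) (T.symm z)
    simpa using h1

end Pool.Agent.Helper83.CB
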